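import Pool.Agent.Lib.SAC75.HNum

/-!
End of the numerical part for artinian local rings of type at least two.
-/

namespace SAC75

open Finset

variable {b ℓ : ℕ → ℕ} {h : ℕ → ℕ → ℕ} {μ : ℕ → ℕ} {c r e w D : ℕ}

/-- Inequality (A), averaged. -/
lemma HSys.stepA (H : HSys b ℓ h μ c r e w D) (n : ℕ) :
    ((μ (n + 1) : ℝ) + μ n) * ((1 / rad b) ^ (n + 1) * (1 + 1 / rad b) ^ 2)
      ≤ c * μ n * (1 / rad b) ^ (n + 2) + w * (1 + 1 / rad b) ^ 2 := by
  have r0 := H.rpos
  set x : ℝ := 1 / rad b with hx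
  set u : ℝ := (μ (n + 1) : ℝ) + μ n with hu
  have step1 : ∀ j : ℕ, D ≤ j → 0 ≤ (c * μ n * x ^ (n + 2) + (w * (1 + x)
      - u * (x ^ (n + 1) * (1 + x)))) * (b j : ℝ)
      + (w * (1 + x) - u * (x ^ (n + 1) * (1 + x))) * b (j + 1) := by
    intro j hj
    have := avg_lin H.b1 r0 (N := 4)
      ![(w : ℝ) * (b j + b (j + 1)), (w : ℝ) * (b j + b (j + 1)),
        -(u * ((b j : ℝ) + b (j + 1))), (c : ℝ) * μ n * b j - u * ((b j : ℝ) + b (j + 1))]
      ![0, 1, n + 1, n + 2] (j + 1 + D) (fun i hi => by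
        have L1 := H.A n i j (by omega) (by omega)
        have L2 := H.A n (i + 1) j (by omega) (by omega)
        have L3 := H.A n i (j + 1) (by omega) (by omega)
        have L4 := H.A n (i + 1) (j + 1) (by omega) (by omega)
        have S := H.sq (i + n + 2) j (by omega)
        have e1 : i + 1 + n + 1 = i + n + 2 := by omega
        have e2 : i + 1 + n + 2 = i + n + 2 + 1 := by omega
        rw [e1, e2] at L2 L4
        have L1' : (b (i + n + 1) : ℝ) * b j * u ≤ h (i + n + 2) j * μ n + b i * b j * w := by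
          rw [hu]; exact_mod_cast L1
        have L2' : (b (i + n + 2) : ℝ) * b j * u ≤ h (i + n + 2 + 1) j * μ n
            + b (i + 1) * b j * w := by rw [hu]; exact_mod_cast L2
        have L3' : (b (i + n + 1) : ℝ) * b (j + 1) * u ≤ h (i + n + 2) (j + 1) * μ n
            + b i * b (j + 1) * w := by rw [hu]; exact_mod_cast L3
        have L4' : (b (i + n + 2) : ℝ) * b (j + 1) * u ≤ h (i + n + 2 + 1) (j + 1) * μ n
            + b (i + 1) * b (j + 1) * w := by rw [hu]; exact_mod_cast L4
        have S' : ((h (i + n + 2) j : ℝ) + h (i + n + 2 + 1) j + h (i + n + 2) (j + 1)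
            + h (i + n + 2 + 1) (j + 1)) * μ n = (c * (b (i + n + 2) * b j)) * μ n := by
          rw [S]
        simp only [Fin.sum_univ_succ, Fin.sum_univ_zero, Matrix.cons_val_zero,
          Matrix.cons_val_succ, add_zero]
        have e3 : i + (n + 1) = i + n + 1 := by omega
        have e4 : i + (n + 2) = i + n + 2 := by omega
        rw [e3, e4]
        nlinarith)
    simp only [Fin.sum_univ_succ, Fin.sum_univ_zero, Matrix.cons_val_zero,
      Matrix.cons_val_succ, add_zero, ← hx] at this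
    have e5 : x ^ (n + 2) = x ^ (n + 1) * x := by ring
    rw [e5] at this ⊢
    nlinarith
  have key := avg_lin H.b1 r0 (N := 2)
    ![c * μ n * x ^ (n + 2) + (w * (1 + x) - u * (x ^ (n + 1) * (1 + x))),
      w * (1 + x) - u * (x ^ (n + 1) * (1 + x))] ![0, 1] D (fun j hj => by
      have := step1 j hj
      simp only [Fin.sum_univ_succ, Fin.sum_univ_zero, Matrix.cons_val_zero,
        Matrix.cons_val_succ, add_zero]
      linarith)
  simp only [Fin.sum_univ_succ, Fin.sum_univ_zero, Matrix.cons_val_zero,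
    Matrix.cons_val_succ, add_zero, ← hx] at key
  nlinarith

/-- Inequality (B), averaged. -/
lemma HSys.stepB (H : HSys b ℓ h μ c r e w D) (n : ℕ) :
    (r : ℝ) * ((μ (n + 1) : ℝ) + μ n) * ((1 / rad b) ^ (n + 1) * (1 + 1 / rad b) ^ 2)
      ≤ c * μ (n + 1) * (1 / rad b) ^ (n + 2) + w * (1 / rad b) * (1 + 1 / rad b) ^ 2 := by
  have r0 := H.rpos
  set x : ℝ := 1 / rad b with hx
  set u : ℝ := (r : ℝ) * ((μ (n + 1) : ℝ) + μ n) with hu
  have step1 : ∀ j : ℕ, D ≤ j → 0 ≤ (-(u * (x ^ (n + 1) * (1 + x)))) * (b j : ℝ)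
      + (c * μ (n + 1) * x ^ (n + 1) + w * (1 + x) - u * (x ^ (n + 1) * (1 + x))) * b (j + 1)
      + (w * (1 + x)) * b (j + 2) := by
    intro j hj
    have := avg_lin H.b1 r0 (N := 4)
      ![(w : ℝ) * (b (j + 1) + b (j + 2)), (w : ℝ) * (b (j + 1) + b (j + 2)),
        (c : ℝ) * μ (n + 1) * b (j + 1) - u * ((b j : ℝ) + b (j + 1)),
        -(u * ((b j : ℝ) + b (j + 1)))]
      ![0, 1, n + 1, n + 2] (j + 2 + D) (fun i hi => by
        have L1 := H.B n i j (by omega) (by omega)
        have L2 := H.B n (i + 1) j (by omega) (by omega)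
        have L3 := H.B n i (j + 1) (by omega) (by omega)
        have L4 := H.B n (i + 1) (j + 1) (by omega) (by omega)
        have S := H.sq (i + n + 1) (j + 1) (by omega)
        have e1 : i + 1 + n + 1 = i + n + 2 := by omega
        have e2 : i + n + 1 + 1 = i + n + 2 := by omega
        rw [e1] at L2 L4
        rw [e2] at S
        have L1' : (b (i + n + 1) : ℝ) * b j * u ≤ h (i + n + 1) (j + 1) * μ (n + 1)
            + b i * b (j + 1) * w := by
          have : (r : ℝ) * b (i + n + 1) * b j * ((μ (n + 1) : ℝ) + μ n)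
            ≤ h (i + n + 1) (j + 1) * μ (n + 1) + b i * b (j + 1) * w := by exact_mod_cast L1
          rw [hu]; linarith
        have L2' : (b (i + n + 2) : ℝ) * b j * u ≤ h (i + n + 2) (j + 1) * μ (n + 1)
            + b (i + 1) * b (j + 1) * w := by
          have : (r : ℝ) * b (i + n + 2) * b j * ((μ (n + 1) : ℝ) + μ n)
            ≤ h (i + n + 2) (j + 1) * μ (n + 1) + b (i + 1) * b (j + 1) * w := by
            exact_mod_cast L2
          rw [hu]; linarith
        have L3' : (b (i + n + 1) : ℝ) * b (j + 1) * u ≤ h (i + n + 1) (j + 1 + 1) * μ (n + 1)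
            + b i * b (j + 2) * w := by
          have : (r : ℝ) * b (i + n + 1) * b (j + 1) * ((μ (n + 1) : ℝ) + μ n)
            ≤ h (i + n + 1) (j + 1 + 1) * μ (n + 1) + b i * b (j + 2) * w := by
            exact_mod_cast L3
          rw [hu]; linarith
        have L4' : (b (i + n + 2) : ℝ) * b (j + 1) * u ≤ h (i + n + 2) (j + 1 + 1) * μ (n + 1)
            + b (i + 1) * b (j + 2) * w := by
          have : (r : ℝ) * b (i + n + 2) * b (j + 1) * ((μ (n + 1) : ℝ) + μ n)
            ≤ h (i + n + 2) (j + 1 + 1) * μ (n + 1) + b (i + 1) * b (j + 2) * w := by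
            exact_mod_cast L4
          rw [hu]; linarith
        have S' : ((h (i + n + 1) (j + 1) : ℝ) + h (i + n + 2) (j + 1)
            + h (i + n + 1) (j + 1 + 1) + h (i + n + 2) (j + 1 + 1)) * μ (n + 1)
            = (c * (b (i + n + 1) * b (j + 1))) * μ (n + 1) := by
          rw [S]
        simp only [Fin.sum_univ_succ, Fin.sum_univ_zero, Matrix.cons_val_zero,
          Matrix.cons_val_succ, add_zero]
        have e3 : i + (n + 1) = i + n + 1 := by omega
        have e4 : i + (n + 2) = i + n + 2 := by omega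
        rw [e3, e4]
        nlinarith)
    simp only [Fin.sum_univ_succ, Fin.sum_univ_zero, Matrix.cons_val_zero,
      Matrix.cons_val_succ, add_zero, ← hx] at this
    have e5 : x ^ (n + 2) = x ^ (n + 1) * x := by ring
    rw [e5] at this
    nlinarith
  have key := avg_lin H.b1 r0 (N := 3)
    ![-(u * (x ^ (n + 1) * (1 + x))),
      c * μ (n + 1) * x ^ (n + 1) + w * (1 + x) - u * (x ^ (n + 1) * (1 + x)),
      w * (1 + x)] ![0, 1, 2] D (fun j hj => by
      have := step1 j hj
      simp only [Fin.sum_univ_succ, Fin.sum_univ_zero, Matrix.cons_val_zero,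
        Matrix.cons_val_succ, add_zero]
      linarith)
  simp only [Fin.sum_univ_succ, Fin.sum_univ_zero, Matrix.cons_val_zero,
    Matrix.cons_val_succ, add_zero, ← hx] at key
  have e5 : x ^ (n + 2) = x ^ (n + 1) * x := by ring
  rw [e5]
  nlinarith

/-- The bound `z ≥ 1 + r`. -/
lemma HSys.zbound (H : HSys b ℓ h μ c r e w D) (x1 : 1 < 1 / rad b) :
    (1 + (r : ℝ)) * (1 + 1 / rad b) ^ 2 ≤ c * (1 / rad b) := by
  by_contra hcon
  push Not at hcon
  have hA := H.stepA
  have hB := H.stepB
  set x : ℝ := 1 / rad b with hx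
  have x0 : 0 < x := by linarith
  obtain ⟨z, hz⟩ : ∃ z : ℝ, z * (1 + x) ^ 2 = c * x := ⟨c * x / (1 + x) ^ 2, by field_simp⟩
  have z0 : 0 ≤ z := by
    have : 0 ≤ z * (1 + x) ^ 2 := by rw [hz]; positivity
    exact nonneg_of_mul_nonneg_left this (by positivity)
  have zr : z < 1 + r := by
    have : z * (1 + x) ^ 2 < (1 + r) * (1 + x) ^ 2 := by rw [hz]; exact hcon
    exact lt_of_mul_lt_mul_right this (by positivity)
  -- normalised inequalities
  have A' : ∀ n, (μ (n + 1) : ℝ) + μ n ≤ z * μ n + w / x ^ (n + 1) := by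
    intro n
    have h1 := hA n
    have p : 0 < x ^ (n + 1) * (1 + x) ^ 2 := by positivity
    have h2 : (c : ℝ) * μ n * x ^ (n + 2) = (z * μ n) * (x ^ (n + 1) * (1 + x) ^ 2) := by
      calc (c : ℝ) * μ n * x ^ (n + 2) = (c * x) * μ n * x ^ (n + 1) := by ring
        _ = _ := by rw [← hz]; ring
    have h3 : (w : ℝ) * (1 + x) ^ 2 = (w / x ^ (n + 1)) * (x ^ (n + 1) * (1 + x) ^ 2) := by
      field_simp
    rw [h2, h3, ← add_mul] at h1
    exact le_of_mul_le_mul_right h1 p
  have B' : ∀ n, (r : ℝ) * ((μ (n + 1) : ℝ) + μ n) ≤ z * μ (n + 1) + w / x ^ n := by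
    intro n
    have h1 := hB n
    have p : 0 < x ^ (n + 1) * (1 + x) ^ 2 := by positivity
    have h2 : (c : ℝ) * μ (n + 1) * x ^ (n + 2)
        = (z * μ (n + 1)) * (x ^ (n + 1) * (1 + x) ^ 2) := by
      calc (c : ℝ) * μ (n + 1) * x ^ (n + 2) = (c * x) * μ (n + 1) * x ^ (n + 1) := by ring
        _ = _ := by rw [← hz]; ring
    have h3 : (w : ℝ) * x * (1 + x) ^ 2 = (w / x ^ n) * (x ^ (n + 1) * (1 + x) ^ 2) := by
      rw [pow_succ]; field_simp; ring
    rw [h2, h3, ← add_mul] at h1
    exact le_of_mul_le_mul_right h1 p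
  -- decay of `μ`
  have dec : ∃ C : ℝ, ∀ n, (μ n : ℝ) ≤ C / x ^ n := by
    rcases eq_or_lt_of_le z0 with hz0 | hz0
    · refine ⟨w, fun n => ?_⟩
      have h1 := A' n
      rw [← hz0, zero_mul, zero_add] at h1
      have h2 : (w : ℝ) / x ^ (n + 1) ≤ w / x ^ n := by
        apply div_le_div_of_nonneg_left (by positivity) (by positivity)
        exact pow_le_pow_right₀ x1.le (Nat.le_succ n)
      have h3 : (0 : ℝ) ≤ μ (n + 1) := by positivity
      linarith
    · set q : ℝ := z * (1 + r - z) with hq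
      have q0 : 0 < q := mul_pos hz0 (by linarith)
      have hr0 : (0 : ℝ) ≤ r := by positivity
      have key : ∀ n, q * μ n ≤ (1 + r + 1) * w / x ^ n := by
        intro n
        have h1 := A' n
        have h2 := B' n
        have m0 : (0 : ℝ) ≤ μ n := by positivity
        have m1 : (0 : ℝ) ≤ μ (n + 1) := by positivity
        have w0 : (0 : ℝ) ≤ w / x ^ n := by positivity
        have h3 : (w : ℝ) / x ^ (n + 1) ≤ w / x ^ n := by
          apply div_le_div_of_nonneg_left (by positivity) (by positivity)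
          exact pow_le_pow_right₀ x1.le (Nat.le_succ n)
        have e1 : (1 + (r : ℝ) + 1) * w / x ^ n = (1 + r + 1) * (w / x ^ n) := by ring
        rw [e1]
        rcases le_total z r with hzr | hzr
        · -- `r μ n ≤ (z - r) μ (n+1) + w / x^n ≤ w / x^n`
          have h4 : (r : ℝ) * μ n ≤ w / x ^ n := by nlinarith
          have h5 : q * μ n ≤ (1 + r) * (r * μ n) := by
            have : q ≤ (1 + r) * r := by
              rw [hq]
              nlinarith
            nlinarith
          nlinarith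
        · have h4 : (r : ℝ) * μ n ≤ (z - r) * μ (n + 1) + w / x ^ n := by linarith
          have h5 : (z - r) * (μ (n + 1) : ℝ) ≤ (z - r) * ((z - 1) * μ n + w / x ^ n) := by
            refine mul_le_mul_of_nonneg_left ?_ (by linarith)
            linarith
          have h6 : (z - r) * (w / x ^ n) ≤ 1 * (w / x ^ n) :=
            mul_le_mul_of_nonneg_right (by linarith) w0
          have h7 : q * μ n = r * μ n - (z - r) * ((z - 1) * μ n) := by rw [hq]; ring
          have h8 : 0 ≤ r * (w / x ^ n) := by positivity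
          rw [h7]
          linarith
      refine ⟨(1 + r + 1) * w / q, fun n => ?_⟩
      have := key n
      rw [div_div, mul_comm q, ← div_div, le_div_iff₀ q0]
      linarith
  obtain ⟨C, hC⟩ := dec
  have C1 : 0 < |C| + 1 := by positivity
  obtain ⟨n0, hn0⟩ : ∃ n0 : ℕ, |C| + 1 < x ^ n0 := pow_unbounded_of_one_lt _ x1
  obtain ⟨n, hn, hμ⟩ := H.nz n0
  have h1 := hC n
  have h2 : x ^ n0 ≤ x ^ n := pow_le_pow_right₀ x1.le hn
  have h3 : (1 : ℝ) ≤ μ n := by exact_mod_cast Nat.one_le_iff_ne_zero.2 hμ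
  have h4 : C / x ^ n < 1 := by
    rw [div_lt_one (by positivity)]
    have := le_abs_self C
    linarith
  linarith

/-- The numerical contradiction. -/
theorem HSys.false (H : HSys b ℓ h μ c r e w D) (hr : 2 ≤ r) (hc : c + 5 ≤ 4 * e)
    (h2 : r = 2 → c < 3 * e) : False := by
  have r0 := H.rpos
  have xb : 1 ≤ 1 / rad b := by rw [one_le_div r0]; exact rad_le_one H.b1
  have S := H.stepS
  obtain ⟨x1, -⟩ := arith xb hc S
  have Z := H.zbound x1
  set x : ℝ := 1 / rad b with hx
  have x0 : 0 < x := by linarith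
  obtain ⟨y, hy⟩ : ∃ y : ℝ, y * x = (1 + x) ^ 2 := ⟨(1 + x) ^ 2 / x, by field_simp⟩
  obtain ⟨z, hz⟩ : ∃ z : ℝ, z * (1 + x) ^ 2 = c * x := ⟨c * x / (1 + x) ^ 2, by field_simp⟩
  have y4 : 4 ≤ y := by
    have : 4 * x ≤ y * x := by rw [hy]; nlinarith [sq_nonneg (x - 1)]
    exact le_of_mul_le_mul_right this x0
  have yz : y * z = c := by
    have : (y * z) * x = c * x := by
      calc (y * z) * x = z * (y * x) := by ring
        _ = _ := by rw [hy, hz]
    exact mul_right_cancel₀ x0.ne' this
  have zr : 1 + (r : ℝ) ≤ z := by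
    have : (1 + (r : ℝ)) * (1 + x) ^ 2 ≤ z * (1 + x) ^ 2 := by rw [hz]; exact Z
    exact le_of_mul_le_mul_right this (by positivity)
  have sum : (e : ℝ) + 3 ≤ y + z := by
    have p : 0 < x * (1 + x) ^ 2 := by positivity
    have : ((e : ℝ) + 3) * (x * (1 + x) ^ 2) ≤ (y + z) * (x * (1 + x) ^ 2) := by
      have e1 : (y + z) * (x * (1 + x) ^ 2) = (y * x) * (1 + x) ^ 2 + x * (z * (1 + x) ^ 2) := by
        ring
      rw [e1, hy, hz]
      nlinarith
    exact le_of_mul_le_mul_right this p
  have hc' : (c : ℝ) + 5 ≤ 4 * e := by exact_mod_cast hc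
  rcases le_total 4 z with hz4 | hz4
  · have : 0 ≤ (y - 4) * (z - 4) := mul_nonneg (by linarith) (by linarith)
    nlinarith
  · have hr2 : r = 2 := by
      have : (r : ℝ) ≤ 3 := by linarith
      have h3 : r ≤ 3 := by exact_mod_cast this
      by_contra hne
      have hr3 : r = 3 := by omega
      subst hr3
      push_cast at zr
      have : 0 ≤ (y - 4) * (z - 4) := by
        have : z = 4 := by linarith
        rw [this]; simp
      nlinarith
    have c3 := h2 hr2
    subst hr2
    push_cast at zr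
    have z3 : 3 ≤ z := by linarith
    have c3' : (c : ℝ) < 3 * e := by exact_mod_cast c3
    have e4 : z ≤ e := by
      -- c = y z ≥ 12 so e ≥ 17/4
      have : (12 : ℝ) ≤ c := by rw [← yz]; nlinarith
      linarith
    have : 0 ≤ (z - 3) * (e - z) := mul_nonneg (by linarith) (by linarith)
    nlinarith

end SAC75
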