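import Pool.Agent.Lib.SAC75.HHom
import Pool.Agent.Lib.SAC75.HNumB

/-!
Artinian local rings which are not Gorenstein and whose length is less than four times the
embedding dimension minus four.
-/

set_option autoImplicit false

open CategoryTheory IsLocalRing

universe u

namespace SAC75

open SAC84

section sy

variable {R : Type u} [CommRing R] [IsLocalRing R] [IsArtinianRing R] [IsNoetherianRing R]

lemma rk_le_ln (X : Type u) [AddCommGroup X] [Module R X] [Module.Finite R X] :
    rk R X ≤ ln R X := by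
  let Θ : (Fin (rk R X) → R) →ₗ[R] (Fin (rk R X) → R ⧸ maximalIdeal R) :=
    { toFun := fun v s => (maximalIdeal R).mkQ (v s)
      map_add' := by
        intro G G'
        ext s
        simp
      map_smul' := by
        intro a G
        funext s
        exact map_smul (maximalIdeal R).mkQ a (G s) }
  have hΘ : Function.Surjective Θ := by
    intro v
    have h3 : ∀ s, ∃ a : R, (maximalIdeal R).mkQ a = v s := fun s =>
      Submodule.mkQ_surjective _ (v s)
    choose u hu using h3
    exact ⟨u, funext hu⟩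
  have h := ln_quot_ge (cov R X) (cov_surj X) Θ hΘ (by
    intro v hv
    funext s
    exact (Submodule.Quotient.mk_eq_zero _).2 (ker_cov_mem X v hv s)) (by
    intro a ha x
    funext s
    obtain ⟨y, hy⟩ := Submodule.mkQ_surjective _ (x s)
    change a • x s = 0
    rw [← hy, ← map_smul]
    exact (Submodule.Quotient.mk_eq_zero _).2 (Ideal.mul_mem_right _ _ ha))
  rw [ln_pi] at h
  have h3 : ln R (R ⧸ maximalIdeal R) = 1 := by
    rw [ln, len_residue]
    rfl
  rw [h3, mul_one] at h
  exact h.trans (ln_le_surj (Submodule.mkQ_surjective _))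

lemma bt_up (M : FGM R) (n : ℕ) : bt M (n + 1) ≤ ln R R * bt M n := by
  have h1 := rk_le_ln (R := R) (sy M (n + 1)).car
  have h2 := ln_sy M n
  have h3 : bt M (n + 1) = rk R (sy M (n + 1)).car := rfl
  rw [h3, mul_comm]
  omega

lemma syz_not_free (X : FGM R) (hX : ¬ Module.Free R X.car) : ¬ Module.Free R (syz X).car := by
  intro hF
  have hn := SAC3.syz_nontrivial X hX
  let B := Module.Free.chooseBasis R (syz X).car
  have hne : Nonempty (Module.Free.ChooseBasisIndex R (syz X).car) := B.index_nonempty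
  obtain ⟨i⟩ := hne
  have h1 := SAC3.syz_small X (B.coord i) (B i)
  rw [Module.Basis.coord_apply, Module.Basis.repr_self, Finsupp.single_eq_same] at h1
  exact (maximalIdeal.isMaximal R).ne_top ((Ideal.eq_top_iff_one _).2 h1)

lemma sy_not_free (M : FGM R) (h : ¬ Module.Free R M.car) (i : ℕ) :
    ¬ Module.Free R (sy M i).car := by
  induction i with
  | zero => exact h
  | succ i ih => exact syz_not_free _ ih

lemma sy_nt (M : FGM R) (h : ¬ Module.Free R M.car) (i : ℕ) : Nontrivial (sy M i).car := by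
  by_contra hn
  rw [not_nontrivial_iff_subsingleton] at hn
  exact sy_not_free M h i inferInstance

lemma bt_pos' (M : FGM R) (h : ¬ Module.Free R M.car) (i : ℕ) : 1 ≤ bt M i :=
  SAC3.rk_pos _ (sy_nt M h i)

variable [HasExt.{u} (ModuleCat.{u} R)]

/-- Vanishing of the Bass numbers goes down. -/
lemma mu_down (Y : Type u) [AddCommGroup Y] [Module R Y] [Module.Finite R Y] (n : ℕ)
    (h : mu R Y (n + 2) = 0) : mu R Y (n + 1) = 0 := by
  obtain ⟨s, hs, hms⟩ := SAC3.exists_soc R
  let f : (R ⧸ maximalIdeal R) →ₗ[R] R :=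
    (maximalIdeal R).liftQ (LinearMap.toSpanSingleton R R s) (by
      intro a ha
      simpa using hms a ha)
  have hfy : ∀ y : R, f (Submodule.Quotient.mk y) = y * s := fun y => by
    rw [Submodule.liftQ_apply, LinearMap.toSpanSingleton_apply, smul_eq_mul]
  have hf : Function.Injective f := by
    rw [← LinearMap.ker_eq_bot, LinearMap.ker_eq_bot']
    intro x hx
    obtain ⟨y, rfl⟩ := Submodule.Quotient.mk_surjective _ x
    have h1 : y * s = 0 := by rw [← hfy]; exact hx
    rw [Submodule.Quotient.mk_eq_zero]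
    exact SAC3.mem_of_mul_soc hs (by rw [mul_comm]; exact h1)
  have h1 := el_sub' (Y := Y) (f := f) (g := (LinearMap.range f).mkQ) hf
    (LinearMap.range f).mkQ_surjective (LinearMap.exact_map_mkQ_range f) (n + 1)
  have h2 := el_le' (R := R) (R ⧸ LinearMap.range f) Y (n + 1 + 1)
  rw [← coe_mu, h, Nat.cast_zero, mul_zero] at h2
  rw [el_proj (Z := R), nonpos_iff_eq_zero.1 h2, add_zero, ← coe_mu] at h1
  exact_mod_cast nonpos_iff_eq_zero.1 h1

/-- The Bass numbers of a syzygy do not vanish eventually. -/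
lemma mu_nz (M : FGM R) (h : ¬ Module.Free R M.car) (n0 : ℕ) :
    ∃ n, n0 ≤ n ∧ mu R (sy M 1).car n ≠ 0 := by
  by_contra hcon
  push Not at hcon
  have h1 : ∀ m, mu R (sy M 1).car (n0 - m + 1) = 0 := by
    intro m
    induction m with
    | zero => exact hcon _ (by omega)
    | succ m ih =>
      by_cases hm : m + 1 ≤ n0
      · have h2 : n0 - m + 1 = n0 - (m + 1) + 2 := by omega
        rw [h2] at ih
        exact mu_down _ _ ih
      · have h2 : n0 - (m + 1) = n0 - m := by omega
        rw [h2]
        exact ih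
  have h2 := h1 n0
  rw [Nat.sub_self, zero_add] at h2
  have h3 := el_le' (R := R) (sy M 0).car (sy M 1).car 1
  rw [← coe_mu, h2, Nat.cast_zero, mul_zero] at h3
  have h4 : ExtZ R (sy M 0).car (sy M 1).car 1 := (el_eq_zero_iff 1).1 (nonpos_iff_eq_zero.1 h3)
  obtain ⟨ψ, hψ⟩ := ExtZ.extend (inc_inj M 0) (pro_surj M 0) (inc_pro M 0) h4 LinearMap.id
  have h5 : (⊤ : Submodule R (sy M 1).car) ≤ maximalIdeal R • ⊤ := by
    intro x _
    have h6 : x = ψ (inc M 0 x) := (congrArg (fun z => z x) hψ).symm
    rw [h6, sum_single ψ]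
    exact Submodule.sum_mem _ fun s _ => Submodule.smul_mem_smul (inc_mem M 0 x s) trivial
  have h7 := Submodule.eq_bot_of_le_smul_of_le_jacobson_bot (maximalIdeal R)
    (⊤ : Submodule R (sy M 1).car) (Module.Finite.fg_top) h5
    (IsLocalRing.maximalIdeal_le_jacobson _)
  obtain ⟨x, y, hxy⟩ := (sy_nt M h 1).exists_pair_ne
  apply hxy
  have hx : x ∈ (⊤ : Submodule R (sy M 1).car) := trivial
  have hy : y ∈ (⊤ : Submodule R (sy M 1).car) := trivial
  rw [h7, Submodule.mem_bot] at hx hy
  rw [hx, hy]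

/-- The numerical system of a module. -/
theorem hsys (M : FGM R) (h : ¬ Module.Free R M.car) (hR : ∀ n, ExtZ R M.car R (n + 1))
    {N : ℕ} (hM : ∀ n, N ≤ n → ExtZ R M.car M.car n) :
    HSys (bt M) (fun i => ln R (sy M i).car) (hl M) (mu R (sy M 1).car) (ln R R)
      (ln R (maximalIdeal R).annihilator)
      (Module.finrank (ResidueField R) (CotangentSpace R)) (ln R (sy M 1).car) (N + 1) := by
  have hV : ∀ i j, N + j ≤ 1 + i → ExtZ R (sy M i).car (sy M j).car 1 :=
    fun i j h' => ext_sy_sy M hR hM (n := 0) (by omega)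
  have hE : ∀ i, ExtZ R (sy M i).car R 1 := fun i => ext_sy_ring M hR i 0
  refine ⟨bt_pos' M h, bt_up M, ?_, ?_, ?_, ?_, ?_, mu_nz M h⟩
  · intro j
    rw [mul_comm]
    exact ln_sy M j
  · intro i j hij
    exact hl_add M i j (hV i j (by omega))
  · intro i j hij
    have h1 := gen_lower M i j (hV _ _ (by omega)) (hV _ _ (by omega)) (hE _) (hE _)
    have h2 := decay_succ M (R ⧸ maximalIdeal R) (i + 1) j 0 (hV _ _ (by omega))
    have h3 := decay_zero M (R ⧸ maximalIdeal R) i j (hV _ _ (by omega))
    have h4 := el_sy_succ M (R ⧸ maximalIdeal R) j 0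
    have h5 := el_zero_le (R ⧸ maximalIdeal R) (pro M (j + 1)) (pro_surj M (j + 1))
    have h6 : ln R (R ⧸ maximalIdeal R) = 1 := by
      rw [ln, len_residue]
      rfl
    rw [h6, mul_one] at h3 h5
    have h7 : el R ((sy M (i + 2)).car →ₗ[R] (sy M j).car) (R ⧸ maximalIdeal R) (0 + 1) ≤
        ((bt M i * bt M j + bt M (i + 1) * bt M (j + 1) : ℕ) : ℕ∞) := by
      refine h2.trans ?_
      push_cast
      refine add_le_add (by exact_mod_cast h3) ?_
      gcongr
      exact h4.trans h5
    have h8 := up_quot (R ⧸ maximalIdeal R) _ (by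
      intro a ha x
      obtain ⟨y, rfl⟩ := Submodule.mkQ_surjective _ x
      rw [← map_smul]
      exact (Submodule.Quotient.mk_eq_zero _).2 (Submodule.smul_mem_smul ha trivial)) h1 h7
    rw [mu_kk, mu_kk, kap_zero, mul_one] at h8
    have h9 := edim_le_kap (R := R)
    have h10 : bt M (i + 1) * bt M j * (Module.finrank (ResidueField R) (CotangentSpace R) + 1) ≤
        bt M (i + 1) * bt M j * (kap R (0 + 1) + 1) :=
      Nat.mul_le_mul_left _ (Nat.add_le_add_right h9 1)
    have h11 : hl M (i + 2) j = ln R ((sy M (i + 2)).car →ₗ[R] (sy M j).car) := rfl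
    rw [h11]
    omega
  · intro n i j hj hij
    have h1 := gen_lower M (i + n) j (hV _ _ (by omega)) (hV _ _ (by omega)) (hE _) (hE _)
    have h2 := decay M (sy M 1).car i j (fun i' _ => hV _ _ (by omega))
      (fun n => ext_sy_sy M hR hM (by omega)) (n + 1)
    exact up_quot (sy M 1).car _ (by
      intro a ha x
      obtain ⟨y, rfl⟩ := Submodule.mkQ_surjective _ x
      rw [← map_smul]
      exact (Submodule.Quotient.mk_eq_zero _).2 (Submodule.smul_mem_smul ha trivial)) h1 h2
  · intro n i j hj hij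
    obtain ⟨j', rfl⟩ : ∃ j', j = j' + 1 := ⟨j - 1, by omega⟩
    have h1 := soc_sy M j'
    have h2 := soc_hom (R := R) (sy M (i + n + 1)).car (sy M (j' + 2)).car
    have h3 := decay M (sy M 1).car i (j' + 2) (fun i' _ => hV _ _ (by omega))
      (fun n => ext_sy_sy M hR hM (by omega)) n
    have h4 : ln R (maximalIdeal R).annihilator * bt M (i + n + 1) * bt M (j' + 1) ≤
        ln R (SAC3.soc R ((sy M (i + n + 1)).car →ₗ[R] (sy M (j' + 2)).car)) := by
      refine le_trans ?_ h2
      calc ln R (maximalIdeal R).annihilator * bt M (i + n + 1) * bt M (j' + 1)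
          = bt M (i + n + 1) * (bt M (j' + 1) * ln R (maximalIdeal R).annihilator) := by ring
        _ ≤ bt M (i + n + 1) * ln R (SAC3.soc R (sy M (j' + 2)).car) :=
          Nat.mul_le_mul_left _ h1
    exact low_sub (sy M 1).car
      (SAC3.soc R ((sy M (i + n + 1)).car →ₗ[R] (sy M (j' + 2)).car))
      (fun a ha x => Subtype.ext (x.2 a ha)) h4 h3

/-- Theorem H. -/
theorem thmH (hr : 2 ≤ ln R (maximalIdeal R).annihilator)
    (hc : ln R R + 5 ≤ 4 * Module.finrank (ResidueField R) (CotangentSpace R))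
    (h2 : ln R (maximalIdeal R).annihilator = 2 →
      ln R R < 3 * Module.finrank (ResidueField R) (CotangentSpace R))
    (M : FGM R) (hR : ∀ n, ExtZ R M.car R (n + 1))
    {N : ℕ} (hM : ∀ n, N ≤ n → ExtZ R M.car M.car n) : Module.Free R M.car := by
  by_contra hfree
  exact HSys.false (hsys M hfree hR hM) hr hc h2

end sy

end SAC75
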