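import Pool.Agent.Lib.SAC75.Contra

/-!
The analytic core for sequences indexed by the integers.
-/

namespace SAC75

open Finset

/-- The data coming from a two-sided minimal resolution (ranks `b`, lengths `Ln` of the
syzygies, lengths `H i l` of the homomorphisms from the `i`-th to the `(l+1)`-st syzygy). -/
structure ZSys (κ : ℕ → ℕ) (b : ℤ → ℕ) (H : ℤ → ℤ → ℕ) (Ln : ℤ → ℕ) (c : ℕ) (D : ℤ) : Prop where
  b1 : ∀ i, 1 ≤ b i
  low : ∀ i l (n : ℕ), l + D ≤ i →
    b i * b l * (κ (n + 1) + κ n)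
      ≤ (∑ p ∈ antidiagonal (n + 1), b (i + p.1) * b (l - p.2)) + H i l * κ n
  up : ∀ i l (n : ℕ), l + D ≤ i →
    ∑ p ∈ antidiagonal n, b (i + p.1) * b (l - p.2) ≤ H i l * κ n
  S1 : ∀ i l, l + D ≤ i → H i l + H (i + 1) l = b i * Ln (l + 1)
  S3 : ∀ i, Ln i + Ln (i + 1) = c * b i

variable {κ : ℕ → ℕ} {b : ℤ → ℕ} {H : ℤ → ℤ → ℕ} {Ln : ℤ → ℕ} {c : ℕ} {D : ℤ}

lemma ZSys.sq (h : ZSys κ b H Ln c D) (i l : ℤ) (hi : l + 1 + D ≤ i) :
    H i l + H (i + 1) l + H i (l + 1) + H (i + 1) (l + 1) = c * (b i * b (l + 1)) := by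
  have h1 := h.S1 i l (by omega)
  have h2 := h.S1 i (l + 1) (by omega)
  have h3 := h.S3 (l + 1)
  calc H i l + H (i + 1) l + H i (l + 1) + H (i + 1) (l + 1)
      = (H i l + H (i + 1) l) + (H i (l + 1) + H (i + 1) (l + 1)) := by ring
    _ = b i * (Ln (l + 1) + Ln (l + 1 + 1)) := by rw [h1, h2]; ring
    _ = _ := by rw [h3]; ring

lemma ZSys.bd (h : ZSys κ b H Ln c D) (i l : ℤ) (hi : l + D ≤ i) :
    H i l ≤ c * (b i * b l) := by
  have h1 := h.S1 i l hi
  have h3 := h.S3 l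
  calc H i l ≤ b i * Ln (l + 1) := by omega
    _ ≤ b i * (c * b l) := Nat.mul_le_mul_left _ (by omega)
    _ = _ := by ring

lemma dualSeq_int (f g : ℕ → ℕ) (b : ℤ → ℕ) (hf : ∀ n : ℕ, f n = b n)
    (hg : ∀ n : ℕ, g n = b (-1 - n)) (l v : ℕ) : dualSeq f g l v = b ((l : ℤ) - v) := by
  unfold dualSeq
  split_ifs with hv
  · rw [hf]; congr 1; omega
  · rw [hg]; congr 1; omega

/-- The system for the module itself. -/
lemma ZSys.toGSys (h : ZSys κ b H Ln c D) :
    GSys κ (fun n => b n) (fun n => b (-1 - n)) (fun i l => H i l) c (D.toNat + 1) := by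
  have key : ∀ (i l n : ℕ), ∑ p ∈ antidiagonal n, (fun n : ℕ => b n) (i + p.1)
        * dualSeq (fun n => b n) (fun n => b (-1 - n)) l p.2
      = ∑ p ∈ antidiagonal n, b ((i : ℤ) + p.1) * b ((l : ℤ) - p.2) := by
    intro i l n
    refine Finset.sum_congr rfl fun p _ => ?_
    rw [dualSeq_int _ _ b (fun _ => rfl) (fun _ => rfl)]
    push_cast
    rfl
  refine ⟨fun n => h.b1 _, fun n => h.b1 _, ?_, ?_, ?_, ?_⟩
  · intro l i n hi
    rw [key]
    exact h.low i l n (by omega)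
  · intro l i n hi
    rw [key]
    exact h.up i l n (by omega)
  · intro l i hi
    have := h.sq i l (by omega)
    push_cast
    exact this.le
  · intro l i hi
    exact h.bd i l (by omega)

/-- The system for the dual module. -/
lemma ZSys.toGSys' (h : ZSys κ b H Ln c D) :
    GSys κ (fun n => b (-1 - n)) (fun n => b n) (fun i l => H (-1 - l) (-1 - i)) c
      (D.toNat + 1) := by
  have key : ∀ (i l n : ℕ), ∑ p ∈ antidiagonal n, (fun n : ℕ => b (-1 - n)) (i + p.1)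
        * dualSeq (fun n => b (-1 - n)) (fun n => b n) l p.2
      = ∑ p ∈ antidiagonal n, b ((-1 - (l : ℤ)) + p.1) * b ((-1 - (i : ℤ)) - p.2) := by
    intro i l n
    rw [← Finset.Nat.sum_antidiagonal_swap]
    refine Finset.sum_congr rfl fun p _ => ?_
    rw [dualSeq_int (fun n : ℕ => b (-1 - n)) (fun n : ℕ => b n) (fun z => b (-1 - z))
      (fun _ => rfl) (fun n => by
        show b (n : ℤ) = b (-1 - (-1 - (n : ℤ)))
        congr 1; omega)]
    rw [mul_comm]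
    have e1 : -1 - ((l : ℤ) - (p.swap.2 : ℕ)) = (-1 - (l : ℤ)) + p.1 := by
      rw [Prod.snd_swap]; omega
    have e2 : -1 - ((i + p.swap.1 : ℕ) : ℤ) = (-1 - (i : ℤ)) - p.2 := by
      rw [Prod.fst_swap]; push_cast; omega
    show b (-1 - ((l : ℤ) - (p.swap.2 : ℕ))) * b (-1 - ((i + p.swap.1 : ℕ) : ℤ)) = _
    rw [e1, e2]
  refine ⟨fun n => h.b1 _, fun n => h.b1 _, ?_, ?_, ?_, ?_⟩
  · intro l i n hi
    rw [key]
    have := h.low (-1 - (l : ℤ)) (-1 - (i : ℤ)) n (by omega)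
    rw [mul_comm (b (-1 - (l : ℤ)))] at this
    exact this
  · intro l i n hi
    rw [key]
    exact h.up (-1 - (l : ℤ)) (-1 - (i : ℤ)) n (by omega)
  · intro l i hi
    have := h.sq (-1 - ((l : ℤ) + 1)) (-1 - ((i : ℤ) + 1)) (by omega)
    have e1 : (-1 - ((l : ℤ) + 1)) + 1 = -1 - (l : ℤ) := by omega
    have e2 : (-1 - ((i : ℤ) + 1)) + 1 = -1 - (i : ℤ) := by omega
    rw [e1, e2] at this
    push_cast
    rw [mul_comm (b (-1 - (i : ℤ)))]
    omega
  · intro l i hi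
    have := h.bd (-1 - (l : ℤ)) (-1 - (i : ℤ)) (by omega)
    rw [mul_comm (b (-1 - (i : ℤ)))]
    exact this

/-- Main numerical statement: length less than `4 (embedding dimension - 1)`. -/
theorem ZSys.false (h : ZSys κ b H Ln c D) (k0 : κ 0 = 1) (k1 : c + 5 ≤ 4 * κ 1) {C : ℕ}
    (sub : ∀ m n, κ (m + n) ≤ C * κ m * κ n) : False :=
  GSys.false h.toGSys h.toGSys' k0 k1 sub

/-- Second numerical statement: length less than `4 (1 + g)`, where `g = 1 / rad κ` is the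
growth of the Betti numbers of the residue field. -/
theorem ZSys.false_curv (h : ZSys κ b H Ln c D) (k0 : κ 0 = 1) (r1 : rad κ < 1)
    (cr : (c : ℝ) * rad κ < 4 * (1 + rad κ)) {C : ℕ}
    (sub : ∀ m n, κ (m + n) ≤ C * κ m * κ n) : False :=
  GSys.false_curv h.toGSys h.toGSys' k0 r1 cr sub

/-- The second numerical statement without the radius: the series of the residue field diverges
at some `t < 1` with `c t < 4 (1 + t)`. -/
theorem ZSys.false_of_t (h : ZSys κ b H Ln c D) (k0 : κ 0 = 1) {t : ℝ} (t0 : 0 < t) (t1 : t < 1)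
    (hdiv : ¬ Summable (fun n => (κ n : ℝ) * t ^ n)) (ct : (c : ℝ) * t < 4 * (1 + t)) {C : ℕ}
    (sub : ∀ m n, κ (m + n) ≤ C * κ m * κ n) : False := by
  have kp := (h.toGSys).kap1
  have r0 := rad_pos kp k0 sub
  have hr : rad κ ≤ t := by
    by_contra hlt
    push Not at hlt
    exact hdiv (good_of_lt_rad t0.le hlt).2
  refine h.false_curv k0 (lt_of_le_of_lt hr t1) ?_ sub
  -- `c r ≤ c t (r/t) < 4 (1+t) r / t ≤ 4 (1 + r)`
  have h1 : (c : ℝ) * t * rad κ < 4 * (1 + t) * rad κ := mul_lt_mul_of_pos_right ct r0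
  have h2 : 4 * (1 + t) * rad κ ≤ 4 * (1 + rad κ) * t := by nlinarith
  have h3 : ((c : ℝ) * rad κ) * t < (4 * (1 + rad κ)) * t := by linarith
  exact lt_of_mul_lt_mul_right h3 t0.le

/-- Both numerical statements together. -/
theorem ZSys.false_or (h : ZSys κ b H Ln c D) (k0 : κ 0 = 1)
    (hyp : c + 5 ≤ 4 * κ 1 ∨ ∃ t : ℝ, 0 < t ∧ t < 1 ∧
      ¬ Summable (fun n => (κ n : ℝ) * t ^ n) ∧ (c : ℝ) * t < 4 * (1 + t)) {C : ℕ}
    (sub : ∀ m n, κ (m + n) ≤ C * κ m * κ n) : False := by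
  rcases hyp with h1 | ⟨t, t0, t1, h2, h3⟩
  · exact h.false k0 h1 sub
  · exact h.false_of_t k0 t0 t1 h2 h3 sub

end SAC75
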