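import Pool.Agent.Lib.SAC75.HMain
import Pool.Agent.Lib.SAC84.Asm84
import Pool.Agent.Lib.SAC3.RedGarc

/-!
Artinian local rings of small length, of any type, and the passage to rings of positive
dimension.
-/

set_option autoImplicit false

open CategoryTheory IsLocalRing

universe u

namespace SAC75

open SAC84

section typeone

variable {R : Type u} [CommRing R] [IsLocalRing R] [IsArtinianRing R] [IsNoetherianRing R]

lemma type_pos : 1 ≤ ln R (maximalIdeal R).annihilator := by
  by_contra h
  have h0 : ln R (maximalIdeal R).annihilator = 0 := by omega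
  rw [ln_eq_zero_iff] at h0
  obtain ⟨s, hs, hms⟩ := SAC3.exists_soc R
  have h1 : s ∈ (maximalIdeal R).annihilator := by
    rw [Submodule.mem_annihilator]
    intro a ha
    rw [smul_eq_mul, mul_comm]
    exact hms a ha
  have h2 : (⟨s, h1⟩ : (maximalIdeal R).annihilator) = 0 := h0.elim _ _
  exact hs (congrArg Subtype.val h2)

variable [HasExt.{u} (ModuleCat.{u} R)]

omit [IsArtinianRing R] [IsNoetherianRing R] in
lemma el_k_le : el R (R ⧸ maximalIdeal R) R 0 ≤ Module.length R (maximalIdeal R).annihilator := by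
  rw [el_zero]
  let f : ((R ⧸ maximalIdeal R) →ₗ[R] R) →ₗ[R] (maximalIdeal R).annihilator :=
    { toFun := fun φ => ⟨φ 1, by
        rw [Submodule.mem_annihilator]
        intro a ha
        rw [smul_eq_mul, mul_comm]
        exact killed_of_k φ 1 a ha⟩
      map_add' := fun _ _ => rfl
      map_smul' := fun _ _ => rfl }
  refine Module.length_le_of_injective f ?_
  intro φ ψ h
  have h1 : φ 1 = ψ 1 := congrArg Subtype.val h
  apply LinearMap.ext
  intro x
  obtain ⟨b, rfl⟩ := Submodule.Quotient.mk_surjective _ x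
  have h2 : (Submodule.Quotient.mk b : R ⧸ maximalIdeal R) = b • (1 : R ⧸ maximalIdeal R) := by
    change Submodule.Quotient.mk b = Submodule.Quotient.mk (b • (1 : R))
    rw [smul_eq_mul, mul_one]
  rw [h2, map_smul, map_smul, h1]

/-- An artinian local ring of type one is self-injective. -/
theorem injective_of_type (h : ln R (maximalIdeal R).annihilator = 1) : Module.Injective R R := by
  have hk : el R (R ⧸ maximalIdeal R) R 0 ≤ 1 := by
    refine el_k_le.trans ?_
    rw [← coe_ln, h]
    rfl
  have hle : ∀ (Z : Type u) [AddCommGroup Z] [Module R Z] [Module.Finite R Z],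
      ln R (Z →ₗ[R] R) ≤ ln R Z := by
    intro Z _ _ _
    have h1 := el_le' (R := R) Z R 0
    rw [el_zero, ← coe_ln] at h1
    have h2 : ((ln R (Z →ₗ[R] R) : ℕ) : ℕ∞) ≤ ((ln R Z : ℕ) : ℕ∞) * 1 :=
      h1.trans (by gcongr)
    rw [mul_one] at h2
    exact_mod_cast h2
  refine Module.Baer.injective ?_
  intro I g
  let ρ : (R →ₗ[R] R) →ₗ[R] (I →ₗ[R] R) := LinearMap.lcomp R R I.subtype
  have hex := LinearMap.exact_lcomp_of_exact_of_surjective R
    (LinearMap.exact_subtype_mkQ I) I.mkQ_surjective
  have hex' : Function.Exact (LinearMap.lcomp R R I.mkQ) ρ.rangeRestrict := by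
    intro φ
    constructor
    · intro h2
      exact (hex φ).1 (congrArg Subtype.val h2)
    · intro h2
      exact Subtype.ext ((hex φ).2 h2)
  have h1 := ln_add (R := R) (Z := LinearMap.range ρ)
    (LinearMap.lcomp_injective_of_surjective I.mkQ I.mkQ_surjective)
    ρ.surjective_rangeRestrict hex'
  have h2 : ln R (R →ₗ[R] R) = ln R R := ln_eq_equiv (LinearMap.ringLmapEquivSelf R R R)
  have h3 := ln_sub_add (R := R) (X := R) I
  have h4 := ln_sub_add (R := R) (LinearMap.range ρ)
  have h5 := hle I
  have h6 := hle (R ⧸ I)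
  have h7 : ln R ((I →ₗ[R] R) ⧸ LinearMap.range ρ) = 0 := by omega
  rw [ln_eq_zero_iff, Submodule.Quotient.subsingleton_iff] at h7
  have h8 : g ∈ LinearMap.range ρ := by
    rw [h7]
    trivial
  obtain ⟨g', hg'⟩ := h8
  exact ⟨g', fun x hx => congrArg (fun z => z ⟨x, hx⟩) hg'⟩

/-- Artinian local rings of small length, any type. -/
theorem small_free
    (hc : ln R R + 5 ≤ 4 * Module.finrank (ResidueField R) (CotangentSpace R))
    (h2 : ln R (maximalIdeal R).annihilator = 2 →
      ln R R < 3 * Module.finrank (ResidueField R) (CotangentSpace R))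
    (M : FGM R) (hR : ∀ n, ExtZ R M.car R (n + 1))
    {N : ℕ} (hM : ∀ n, N ≤ n → ExtZ R M.car M.car n) : Module.Free R M.car := by
  have h1 := type_pos (R := R)
  by_cases h3 : ln R (maximalIdeal R).annihilator = 1
  · exact thmT (injective_of_type h3) hc M hM
  · exact thmH (by omega) hc h2 M hR hM

end typeone

section dim

variable {R : Type u} [CommRing R] [IsLocalRing R] [IsNoetherianRing R]
  [HasExt.{u} (ModuleCat.{u} R)]

/-- Finite projective dimension with the exact bound. -/
theorem garc_strict
    (G : ∀ M' : FGM R, (∀ n, ExtZ R M'.car R (n + 1)) →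
      (∃ N : ℕ, ∀ n, N ≤ n → ExtZ R M'.car M'.car n) → Module.Free R M'.car)
    (M : FGM R) {a N : ℕ} (hR : ∀ n, a < n → ExtZ R M.car R n)
    (hM : ∀ n, N ≤ n → ExtZ R M.car M.car n) :
    HasProjectiveDimensionLE (ModuleCat.of R M.car) a := by
  refine SAC3.pd_of_free_sy M a (G (sy M a) ?_ ⟨a + N + 2, ?_⟩)
  · intro n
    exact ext_sy_left M R a n (hR _ (by omega))
  · intro n hn
    obtain ⟨k, rfl⟩ := Nat.exists_eq_add_of_le' (show 1 ≤ n by omega)
    exact ext_sy_left M _ a k (SAC3.ext_sy_right' M (a := a + N + 1)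
      (fun n hn => hR n (by omega)) (fun n hn => hM n (by omega)) a (k + 1) (by omega))

end dim

end SAC75
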