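import Mathlib

/-!
An averaging lemma: if `b` is a nonnegative sequence with radius of convergence `ρ` and
`∑ c k * b (i + k) ≥ 0` for all large `i`, then `∑ c k * (1/ρ)^k ≥ 0`.
-/

namespace SAC75

open Finset

section weights

/-- Weights with ratio `t1` up to the index `m` and ratio `t2` after it. -/
noncomputable def wt (t1 t2 : ℝ) (m i : ℕ) : ℝ := if i ≤ m then t1 ^ i else t1 ^ m * t2 ^ (i - m)

variable {t1 t2 : ℝ}

lemma wt_pos (h1 : 0 < t1) (h2 : 0 < t2) (m i : ℕ) : 0 < wt t1 t2 m i := by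
  unfold wt; split_ifs <;> positivity

lemma wt_succ_ge (h1 : 0 < t1) (_h2 : 0 < t2) (h : t2 ≤ t1) (m i : ℕ) :
    t2 * wt t1 t2 m i ≤ wt t1 t2 m (i + 1) := by
  unfold wt
  rcases lt_trichotomy i m with h0 | h0 | h0
  · rw [if_pos h0.le, if_pos (by omega), pow_succ, mul_comm]
    exact mul_le_mul_of_nonneg_left h (by positivity)
  · subst h0
    rw [if_pos le_rfl, if_neg (by omega), Nat.add_sub_cancel_left, pow_one, mul_comm]
  · rw [if_neg (by omega), if_neg (by omega)]
    have e : i + 1 - m = (i - m) + 1 := by omega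
    rw [e, pow_succ]
    exact le_of_eq (by ring)

lemma wt_succ_le (h1 : 0 < t1) (h2 : 0 < t2) (h : t2 ≤ t1) (m i : ℕ) :
    wt t1 t2 m (i + 1) ≤ t1 * wt t1 t2 m i := by
  unfold wt
  rcases lt_trichotomy i m with h0 | h0 | h0
  · rw [if_pos h0.le, if_pos (by omega), pow_succ, mul_comm]
  · subst h0
    rw [if_pos le_rfl, if_neg (by omega), Nat.add_sub_cancel_left, pow_one, mul_comm]
    exact mul_le_mul_of_nonneg_right h (by positivity)
  · rw [if_neg (by omega), if_neg (by omega)]
    have e : i + 1 - m = (i - m) + 1 := by omega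
    rw [e, pow_succ]
    have : t2 * (t1 ^ m * t2 ^ (i - m)) ≤ t1 * (t1 ^ m * t2 ^ (i - m)) :=
      mul_le_mul_of_nonneg_right h (by positivity)
    calc _ = t2 * (t1 ^ m * t2 ^ (i - m)) := by ring
      _ ≤ _ := this

lemma wt_add_ge (h1 : 0 < t1) (h2 : 0 < t2) (h : t2 ≤ t1) (m i k : ℕ) :
    t2 ^ k * wt t1 t2 m i ≤ wt t1 t2 m (i + k) := by
  induction k with
  | zero => simp
  | succ k ih =>
    calc t2 ^ (k + 1) * wt t1 t2 m i = t2 * (t2 ^ k * wt t1 t2 m i) := by ring
      _ ≤ t2 * wt t1 t2 m (i + k) := mul_le_mul_of_nonneg_left ih h2.le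
      _ ≤ _ := wt_succ_ge h1 h2 h m (i + k)

lemma wt_add_le (h1 : 0 < t1) (h2 : 0 < t2) (h : t2 ≤ t1) (m i k : ℕ) :
    wt t1 t2 m (i + k) ≤ t1 ^ k * wt t1 t2 m i := by
  induction k with
  | zero => simp
  | succ k ih =>
    calc wt t1 t2 m (i + (k + 1)) ≤ t1 * wt t1 t2 m (i + k) := wt_succ_le h1 h2 h m (i + k)
      _ ≤ t1 * (t1 ^ k * wt t1 t2 m i) := mul_le_mul_of_nonneg_left ih h1.le
      _ = _ := by ring

lemma wt_le (h1 : 0 < t1) (h2 : 0 < t2) (h : t2 ≤ t1) (m i : ℕ) : wt t1 t2 m i ≤ t1 ^ i := by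
  have := wt_add_le h1 h2 h m 0 i
  have e : wt t1 t2 m 0 = 1 := by simp [wt]
  rw [zero_add, e, mul_one] at this
  exact this

end weights

/-- The averaging lemma. -/
theorem avg {b : ℕ → ℝ} (hb : ∀ n, 0 ≤ b n) {ρ : ℝ} (ρ0 : 0 < ρ)
    (hlt : ∀ t, 0 < t → t < ρ → Summable (fun n => b n * t ^ n))
    (hgt : ∀ t, ρ < t → ∀ C, ∃ n, C < b n * t ^ n)
    (K : ℕ) (c : ℕ → ℝ) (L : ℕ) (h : ∀ i, L ≤ i → 0 ≤ ∑ k ∈ range K, c k * b (i + k)) :
    0 ≤ ∑ k ∈ range K, c k * (1 / ρ) ^ k := by
  by_contra hneg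
  push Not at hneg
  set cp : ℕ → ℝ := fun k => max (c k) 0 with hcp
  set cn : ℕ → ℝ := fun k => max (-(c k)) 0 with hcn
  have cpn : ∀ k, c k = cp k - cn k := by
    intro k
    simp only [hcp, hcn]
    rcases le_total 0 (c k) with h0 | h0
    · rw [max_eq_left h0, max_eq_right (by linarith)]; ring
    · rw [max_eq_right h0, max_eq_left (by linarith)]; ring
  have cp0 : ∀ k, 0 ≤ cp k := fun k => le_max_right _ _
  have cn0 : ∀ k, 0 ≤ cn k := fun k => le_max_right _ _
  set G : ℝ → ℝ := fun x => ∑ k ∈ range K, (cp k * (1 / (ρ - x)) ^ k - cn k * (1 / (ρ + x)) ^ k)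
    with hG
  have G0 : G 0 < 0 := by
    simp only [hG, sub_zero, add_zero]
    refine lt_of_eq_of_lt (Finset.sum_congr rfl fun k _ => ?_) hneg
    rw [cpn k]; ring
  have cont : ContinuousAt G 0 := by
    have c1 : ContinuousAt (fun x : ℝ => 1 / (ρ - x)) 0 := by
      refine ContinuousAt.div continuousAt_const (by fun_prop) ?_
      simpa using ρ0.ne'
    have c2 : ContinuousAt (fun x : ℝ => 1 / (ρ + x)) 0 := by
      refine ContinuousAt.div continuousAt_const (by fun_prop) ?_
      simpa using ρ0.ne'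
    exact tendsto_finsetSum _ fun k _ =>
      ((continuousAt_const.mul (c1.pow k)).sub (continuousAt_const.mul (c2.pow k)))
  have ev : ∀ᶠ x in nhdsWithin (0 : ℝ) (Set.Ioi 0), G x < G 0 / 2 ∧ x < ρ ∧ 0 < x := by
    have e1 : ∀ᶠ x in nhds (0 : ℝ), G x < G 0 / 2 :=
      cont.eventually (gt_mem_nhds (by linarith))
    have e2 : ∀ᶠ x in nhds (0 : ℝ), x < ρ := gt_mem_nhds ρ0
    filter_upwards [e1.filter_mono nhdsWithin_le_nhds, e2.filter_mono nhdsWithin_le_nhds,
      self_mem_nhdsWithin] with x h1 h2 h3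
    exact ⟨h1, h2, h3⟩
  obtain ⟨x, hx1, hx2, hx3⟩ := ev.exists
  set t1 : ℝ := ρ + x with ht1
  set t2 : ℝ := ρ - x with ht2
  have t1p : 0 < t1 := by rw [ht1]; linarith
  have t2p : 0 < t2 := by rw [ht2]; linarith
  have t21 : t2 ≤ t1 := by rw [ht1, ht2]; linarith
  have s2 : Summable (fun n => b n * t2 ^ n) := hlt t2 t2p (by rw [ht2]; linarith)
  -- summability of weighted shifts
  have sW : ∀ m, Summable (fun n => wt t1 t2 m n * b n) := by
    intro m
    have key : ∀ n, wt t1 t2 m n ≤ (t1 ^ m / t2 ^ m) * t2 ^ n := by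
      intro n
      unfold wt
      split_ifs with hn
      · have h1 : (t1 ^ m / t2 ^ m) * t2 ^ n = t1 ^ n * (t1 ^ (m - n) / t2 ^ (m - n)) := by
          have e1 : t1 ^ m = t1 ^ n * t1 ^ (m - n) := by rw [← pow_add]; congr 1; omega
          have e2 : t2 ^ m = t2 ^ n * t2 ^ (m - n) := by rw [← pow_add]; congr 1; omega
          rw [e1, e2]; field_simp
        rw [h1]
        have h2 : 1 ≤ t1 ^ (m - n) / t2 ^ (m - n) := by
          rw [one_le_div (by positivity)]
          exact pow_le_pow_left₀ t2p.le t21 _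
        nlinarith [pow_pos t1p n]
      · have e2 : t2 ^ n = t2 ^ m * t2 ^ (n - m) := by rw [← pow_add]; congr 1; omega
        rw [e2]
        refine le_of_eq ?_
        field_simp
    refine Summable.of_nonneg_of_le (fun n => mul_nonneg (wt_pos t1p t2p m n).le (hb n))
      (fun n => ?_) (s2.mul_left (t1 ^ m / t2 ^ m))
    calc _ ≤ (t1 ^ m / t2 ^ m) * t2 ^ n * b n := mul_le_mul_of_nonneg_right (key n) (hb n)
      _ = _ := by ring
  have shift : ∀ m k, Summable (fun i => wt t1 t2 m (L + i + k) * b (L + i + k)) := by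
    intro m k
    have := (summable_nat_add_iff (f := fun n => wt t1 t2 m n * b n) (L + k)).2 (sW m)
    refine this.congr fun i => ?_
    have e : i + (L + k) = L + i + k := by omega
    rw [e]
  set A : ℕ → ℝ := fun m => ∑' i, wt t1 t2 m (L + i) * b (L + i) with hA
  have shiftb : ∀ m k, Summable (fun i => wt t1 t2 m (L + i) * b (L + i + k)) := by
    intro m k
    refine Summable.of_nonneg_of_le
      (fun i => mul_nonneg (wt_pos t1p t2p m _).le (hb _)) (fun i => ?_)
      ((shift m k).mul_left ((1 / t2) ^ k))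
    have h1 := wt_add_ge t1p t2p t21 m (L + i) k
    have h2 : wt t1 t2 m (L + i) ≤ (1 / t2) ^ k * wt t1 t2 m (L + i + k) := by
      rw [one_div, inv_pow, ← div_eq_inv_mul, le_div_iff₀ (by positivity)]
      linarith
    calc _ ≤ ((1 / t2) ^ k * wt t1 t2 m (L + i + k)) * b (L + i + k) :=
          mul_le_mul_of_nonneg_right h2 (hb _)
      _ = _ := by ring
  set C : ℝ := ∑ n ∈ range (L + K), t1 ^ n * b n with hC
  have C0 : 0 ≤ C := Finset.sum_nonneg fun n _ => mul_nonneg (by positivity) (hb n)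
  have tail : ∀ m k, k < K → ∑' i, wt t1 t2 m (L + i + k) * b (L + i + k) ≤ A m ∧
      A m - C ≤ ∑' i, wt t1 t2 m (L + i + k) * b (L + i + k) := by
    intro m k hk
    have s0 : Summable (fun i => wt t1 t2 m (L + i) * b (L + i)) := by
      simpa using shift m 0
    have e := s0.sum_add_tsum_nat_add k
    have e' : ∑' i, wt t1 t2 m (L + (i + k)) * b (L + (i + k))
        = ∑' i, wt t1 t2 m (L + i + k) * b (L + i + k) := by
      refine tsum_congr fun i => ?_
      rw [← add_assoc]
    rw [e'] at e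
    have p0 : 0 ≤ ∑ i ∈ range k, wt t1 t2 m (L + i) * b (L + i) :=
      Finset.sum_nonneg fun i _ => mul_nonneg (wt_pos t1p t2p m _).le (hb _)
    have p1 : ∑ i ∈ range k, wt t1 t2 m (L + i) * b (L + i) ≤ C := by
      calc _ ≤ ∑ i ∈ range k, t1 ^ (L + i) * b (L + i) :=
            Finset.sum_le_sum fun i _ =>
              mul_le_mul_of_nonneg_right (wt_le t1p t2p t21 m _) (hb _)
        _ ≤ ∑ i ∈ range K, t1 ^ (L + i) * b (L + i) :=
            Finset.sum_le_sum_of_subset_of_nonneg (Finset.range_mono hk.le)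
              (fun i _ _ => mul_nonneg (by positivity) (hb _))
        _ ≤ C := by
            rw [hC, Finset.sum_range_add]
            have : 0 ≤ ∑ n ∈ range L, t1 ^ n * b n :=
              Finset.sum_nonneg fun n _ => mul_nonneg (by positivity) (hb n)
            linarith
    simp only [hA]
    constructor <;> linarith
  set N : ℝ := ∑ k ∈ range K, cn k * (1 / t1) ^ k with hN
  have N0 : 0 ≤ N := Finset.sum_nonneg fun k _ => mul_nonneg (cn0 k) (by positivity)
  have main : ∀ m, A m * (-(G x)) ≤ C * N := by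
    intro m
    have A0 : 0 ≤ A m := tsum_nonneg fun i => mul_nonneg (wt_pos t1p t2p m _).le (hb _)
    have T1 : ∀ k, k < K → ∑' i, wt t1 t2 m (L + i) * b (L + i + k) ≤ (1 / t2) ^ k * A m := by
      intro k hk
      have h1 : ∑' i, wt t1 t2 m (L + i) * b (L + i + k)
          ≤ ∑' i, (1 / t2) ^ k * (wt t1 t2 m (L + i + k) * b (L + i + k)) := by
        refine (shiftb m k).tsum_le_tsum (fun i => ?_) ((shift m k).mul_left _)
        have h1 := wt_add_ge t1p t2p t21 m (L + i) k
        have h2 : wt t1 t2 m (L + i) ≤ (1 / t2) ^ k * wt t1 t2 m (L + i + k) := by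
          rw [one_div, inv_pow, ← div_eq_inv_mul, le_div_iff₀ (by positivity)]
          linarith
        calc _ ≤ ((1 / t2) ^ k * wt t1 t2 m (L + i + k)) * b (L + i + k) :=
              mul_le_mul_of_nonneg_right h2 (hb _)
          _ = _ := by ring
      rw [tsum_mul_left] at h1
      exact h1.trans (mul_le_mul_of_nonneg_left (tail m k hk).1 (by positivity))
    have T2 : ∀ k, k < K → (1 / t1) ^ k * (A m - C) ≤ ∑' i, wt t1 t2 m (L + i) * b (L + i + k) := by
      intro k hk
      have h1 : ∑' i, (1 / t1) ^ k * (wt t1 t2 m (L + i + k) * b (L + i + k))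
          ≤ ∑' i, wt t1 t2 m (L + i) * b (L + i + k) := by
        refine ((shift m k).mul_left _).tsum_le_tsum (fun i => ?_) (shiftb m k)
        have h1 := wt_add_le t1p t2p t21 m (L + i) k
        have h2 : (1 / t1) ^ k * wt t1 t2 m (L + i + k) ≤ wt t1 t2 m (L + i) := by
          rw [one_div, inv_pow, ← div_eq_inv_mul, div_le_iff₀ (by positivity)]
          linarith
        calc _ = ((1 / t1) ^ k * wt t1 t2 m (L + i + k)) * b (L + i + k) := by ring
          _ ≤ _ := mul_le_mul_of_nonneg_right h2 (hb _)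
      rw [tsum_mul_left] at h1
      exact (mul_le_mul_of_nonneg_left (tail m k hk).2 (by positivity)).trans h1
    have pos : 0 ≤ ∑' i, wt t1 t2 m (L + i) * ∑ k ∈ range K, c k * b (L + i + k) :=
      tsum_nonneg fun i => mul_nonneg (wt_pos t1p t2p m _).le (h _ (by omega))
    have e1 : ∑' i, wt t1 t2 m (L + i) * ∑ k ∈ range K, c k * b (L + i + k)
        = ∑ k ∈ range K, c k * ∑' i, wt t1 t2 m (L + i) * b (L + i + k) := by
      have : ∀ i, wt t1 t2 m (L + i) * ∑ k ∈ range K, c k * b (L + i + k)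
          = ∑ k ∈ range K, c k * (wt t1 t2 m (L + i) * b (L + i + k)) := by
        intro i
        rw [Finset.mul_sum]
        exact Finset.sum_congr rfl fun k _ => by ring
      simp_rw [this]
      rw [Summable.tsum_finsetSum (fun k _ => (shiftb m k).mul_left (c k))]
      exact Finset.sum_congr rfl fun k _ => tsum_mul_left
    rw [e1] at pos
    have e2 : ∑ k ∈ range K, c k * ∑' i, wt t1 t2 m (L + i) * b (L + i + k)
        ≤ ∑ k ∈ range K, (cp k * ((1 / t2) ^ k * A m) - cn k * ((1 / t1) ^ k * (A m - C))) := by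
      refine Finset.sum_le_sum fun k hk => ?_
      have hk' := Finset.mem_range.1 hk
      rw [cpn k, sub_mul]
      have := mul_le_mul_of_nonneg_left (T1 k hk') (cp0 k)
      have := mul_le_mul_of_nonneg_left (T2 k hk') (cn0 k)
      linarith
    have e3 : ∑ k ∈ range K, (cp k * ((1 / t2) ^ k * A m) - cn k * ((1 / t1) ^ k * (A m - C)))
        = G x * A m + C * N := by
      simp only [hG, hN, Finset.sum_mul, Finset.mul_sum]
      rw [← Finset.sum_add_distrib]
      refine Finset.sum_congr rfl fun k _ => ?_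
      simp only [ht1, ht2]
      ring
    rw [e3] at e2
    linarith
  have Gneg : 0 < -(G x) := by linarith
  -- unboundedness
  obtain ⟨n, hn⟩ := hgt t1 (by rw [ht1]; linarith) (C * N / (-(G x)) + C)
  have hnL : L ≤ n := by
    by_contra hlt
    have h1 : b n * t1 ^ n ≤ C := by
      rw [hC, mul_comm]
      exact Finset.single_le_sum (f := fun n => t1 ^ n * b n)
        (fun i _ => mul_nonneg (by positivity) (hb i)) (Finset.mem_range.2 (by omega))
    have h2 : 0 ≤ C * N / (-(G x)) := by positivity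
    linarith
  have h1 : b n * t1 ^ n ≤ A n := by
    have s0 : Summable (fun i => wt t1 t2 n (L + i) * b (L + i)) := by
      simpa using shift n 0
    have h2 := s0.le_tsum (n - L) (fun i _ => mul_nonneg (wt_pos t1p t2p n _).le (hb _))
    have e : L + (n - L) = n := by omega
    rw [e] at h2
    have e2 : wt t1 t2 n n = t1 ^ n := by simp [wt]
    rw [e2, mul_comm] at h2
    exact h2
  have h2 : A n ≤ C * N / (-(G x)) := by
    rw [le_div_iff₀ Gneg]; exact main n
  linarith

end SAC75
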