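import Pool.Agent.Lib.SAC75.Growth

/-!
End of the real analysis: the system `GSys` for a module and its dual is contradictory when
`c < 4 (κ 1 - 1)`.
-/

namespace SAC75

open Finset

section analysis
variable {κ b a : ℕ → ℕ} {H : ℕ → ℕ → ℕ} {c D : ℕ}

/-- Step (2): a good pair of indices. -/
lemma GSys.exists_pair (h : GSys κ b a H c D) {r : ℝ} (r0 : 0 < r) (r1 : r < 1)
    (hr : r ≤ rad b) (big : r * c * (1 / rad b) < (1 + r) * (1 + 1 / rad b) ^ 2) :
    ∃ l i, l + D ≤ i ∧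
      0 < (b i : ℝ) * b l * (1 + r) - r * H i l - r ^ l * H i 0 := by
  by_contra hcon
  push Not at hcon
  have rb0 : 0 < rad b := lt_of_lt_of_le r0 hr
  set x : ℝ := 1 / rad b with hx
  have x0 : 0 < x := by positivity
  set δ : ℝ := (1 + r) * (1 + x) ^ 2 - r * c * x with hδ
  have δ0 : 0 < δ := by
    rw [hδ]; linarith
  set ε : ℝ := δ / (2 * (1 + x) ^ 2) with hε
  have ε0 : 0 < ε := by rw [hε]; positivity
  have εδ : ε * (1 + x) ^ 2 = δ / 2 := by rw [hε]; field_simp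
  have C0 : 0 < (c : ℝ) * b 0 + 1 := by positivity
  obtain ⟨L, hL⟩ : ∃ L : ℕ, r ^ L < ε / (c * b 0 + 1) :=
    exists_pow_lt_of_lt_one (by positivity) r1
  have hl : ∀ l i, L ≤ l → l + D ≤ i → (1 + r - ε) * (b i * b l) ≤ r * (H i l : ℝ) := by
    intro l i hl hi
    have h0 := hcon l i hi
    have h1 : r ^ l ≤ r ^ L := pow_le_pow_of_le_one r0.le r1.le hl
    have h2 : r ^ L * (c * b 0 + 1) < ε := by rwa [lt_div_iff₀ C0] at hL
    have h3 : (H i 0 : ℝ) ≤ c * (b i * b 0) := by exact_mod_cast h.bd 0 i (by omega)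
    have bi : (1 : ℝ) ≤ b i := by exact_mod_cast h.b1 i
    have bl : (1 : ℝ) ≤ b l := by exact_mod_cast h.b1 l
    have h4 : r ^ l * (H i 0 : ℝ) ≤ ε * b i := by
      calc r ^ l * (H i 0 : ℝ) ≤ r ^ L * (c * (b i * b 0)) :=
            mul_le_mul h1 h3 (by positivity) (by positivity)
        _ = (r ^ L * (c * b 0)) * b i := by ring
        _ ≤ ε * b i := by
            refine mul_le_mul_of_nonneg_right ?_ (by positivity)
            have : r ^ L * (c * b 0) ≤ r ^ L * (c * b 0 + 1) :=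
              mul_le_mul_of_nonneg_left (by linarith) (by positivity)
            linarith
    have h5 : ε * (b i : ℝ) ≤ ε * (b i * b l) := by
      refine mul_le_mul_of_nonneg_left ?_ ε0.le
      nlinarith
    linarith
  set C : ℕ → ℕ → ℝ := fun k m =>
    (if k = 0 ∧ m = 1 then r * (c : ℝ) else 0)
    - (if (k = 0 ∨ k = 1) ∧ (m = 0 ∨ m = 1) then (1 + r - ε) else 0) with hC
  have key := avg2 h.b1 rb0 C L (D + 1) (by
    intro l i hL hi
    have L1 := hl l i (by omega) (by omega)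
    have L2 := hl l (i + 1) (by omega) (by omega)
    have L3 := hl (l + 1) i (by omega) (by omega)
    have L4 := hl (l + 1) (i + 1) (by omega) (by omega)
    have S := h.sq l i (by omega)
    have S' : (H i l : ℝ) + H (i + 1) l + H i (l + 1) + H (i + 1) (l + 1)
        ≤ c * (b i * b (l + 1)) := by exact_mod_cast S
    have S2 := mul_le_mul_of_nonneg_left S' r0.le
    simp only [hC, Finset.sum_range_succ, Finset.sum_range_zero]
    norm_num
    linarith)
  rw [← hx] at key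
  simp only [hC, Finset.sum_range_succ, Finset.sum_range_zero] at key
  norm_num at key
  have e1 : (1 + r) * (1 + x) ^ 2 - r * c * x - ε * (1 + x) ^ 2 ≤ 0 := by linarith
  rw [εδ, ← hδ] at e1
  linarith

lemma GSys.split (h : GSys κ b a H c D) {t : ℝ} (ht : Good κ t) (l : ℕ) :
    PS (dualSeq b a l) t = (∑ v ∈ range l, (dualSeq b a l v : ℝ) * t ^ v)
      + t ^ l * PS (dualSeq b a 0) t := by
  have s := h.sumQ ht l
  rw [PS, ← s.sum_add_tsum_nat_add l, PS, ← tsum_mul_left]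
  congr 1
  refine tsum_congr fun v => ?_
  rw [add_comm v l, dualSeq_add, pow_add]; ring

/-- the coefficient in `lower` is decreasing in `t` -/
lemma GSys.coef (h : GSys κ b a H c D) (k0 : κ 0 = 1) (l i : ℕ) (hi : l + D ≤ i) {t r : ℝ}
    (htr : t ≤ r) :
    (b i : ℝ) * b l * (1 + r) - r * H i l ≤ (b i : ℝ) * b l * (1 + t) - t * H i l := by
  have h1 : ((b i : ℝ) * b l) ≤ H i l := by exact_mod_cast h.Hge k0 l i hi
  nlinarith

/-- Step (3): `Q_0` is bounded below the radius. -/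
lemma GSys.Q_bdd (h : GSys κ b a H c D) (k0 : κ 0 = 1) {r : ℝ} (r0 : 0 < r) (r1 : r < 1)
    (hr : r ≤ rad b) (big : r * c * (1 / rad b) < (1 + r) * (1 + 1 / rad b) ^ 2) :
    ∃ B : ℝ, ∀ t, 0 < t → t < r → Good κ t → PS (dualSeq b a 0) t ≤ B := by
  obtain ⟨l, i, hi, hpos⟩ := h.exists_pair r0 r1 hr big
  set X : ℝ := (H i 0 : ℝ) with hX
  set S : ℝ := ∑ v ∈ range l, (dualSeq b a l v : ℝ) with hS
  set δ : ℝ := (b i : ℝ) * b l * (1 + r) - r * H i l - r ^ l * X with hδ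
  refine ⟨X * S / δ, fun t t0 tr ht => ?_⟩
  have U := h.upper ht 0 i (by omega)
  have Lo := h.lower k0 ht l i hi
  have sp := h.split ht l
  have co := h.coef k0 l i hi tr.le
  set A := PS (fun n => b (i + n)) t with hA
  set Q0 := PS (dualSeq b a 0) t with hQ0
  set Ql := PS (dualSeq b a l) t with hQl
  set P := PS κ t with hP
  have P0 : 0 ≤ P := PS_nonneg _ t0.le
  have Q00 : 0 ≤ Q0 := PS_nonneg _ t0.le
  have X0 : 0 ≤ X := by rw [hX]; positivity
  have A0 : 0 < A := by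
    have s := h.sumA ht l i hi
    have h1 : (b (i + 0) : ℝ) * t ^ 0 ≤ A :=
      s.le_tsum 0 (fun n _ => by have := pow_pos t0 n; positivity)
    have h2 : (1 : ℝ) ≤ b (i + 0) := by exact_mod_cast h.b1 _
    rw [pow_zero, mul_one] at h1
    linarith
  have St : (∑ v ∈ range l, (dualSeq b a l v : ℝ) * t ^ v) ≤ S := by
    refine Finset.sum_le_sum fun v _ => ?_
    have h1 : t ^ v ≤ 1 := pow_le_one₀ t0.le (by linarith)
    have h2 : (0 : ℝ) ≤ dualSeq b a l v := by positivity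
    nlinarith
  set E : ℝ := (b i : ℝ) * b l * (1 + t) - t * H i l with hE
  have tl : t ^ l ≤ r ^ l := pow_le_pow_left₀ t0.le tr.le l
  have Eδ : δ ≤ E - X * t ^ l := by
    have m2 : X * t ^ l ≤ X * r ^ l := mul_le_mul_of_nonneg_left tl X0
    rw [hδ]; linarith
  have E0 : 0 ≤ E := by
    have : 0 ≤ X * t ^ l := by positivity
    linarith
  have L2 : A * Ql ≤ A * (S + t ^ l * Q0) := by
    refine mul_le_mul_of_nonneg_left ?_ A0.le
    rw [sp]; linarith
  have main : A * (Q0 * E) ≤ A * (X * (S + t ^ l * Q0)) := by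
    calc A * (Q0 * E) = (A * Q0) * E := by ring
      _ ≤ (X * P) * E := mul_le_mul_of_nonneg_right U E0
      _ = X * (E * P) := by ring
      _ ≤ X * (A * (S + t ^ l * Q0)) := mul_le_mul_of_nonneg_left (Lo.trans L2) X0
      _ = _ := by ring
  have main' := le_of_mul_le_mul_left main A0
  have m4 : Q0 * δ ≤ X * S := by
    have := mul_le_mul_of_nonneg_left Eδ Q00
    nlinarith
  rw [le_div_iff₀ hpos]
  exact m4

/-- The Poincare series of the module itself is bounded below the radius. -/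
lemma GSys.A_bdd {H' : ℕ → ℕ → ℕ} (h' : GSys κ a b H' c D) (k0 : κ 0 = 1) {r : ℝ} (r0 : 0 < r)
    (r1 : r < 1) (hr : r ≤ rad a) (big : r * c * (1 / rad a) < (1 + r) * (1 + 1 / rad a) ^ 2) (i : ℕ) :
    ∃ B : ℝ, ∀ t, r / 2 ≤ t → t < r → Good κ t → PS (fun n => b (i + n)) t ≤ B := by
  obtain ⟨B, hB⟩ := h'.Q_bdd k0 r0 r1 hr big
  refine ⟨B / (r / 2) ^ (i + 1), fun t t0 tr ht => ?_⟩
  have tpos : 0 < t := by linarith
  have hb := hB t tpos tr ht
  have s := h'.sumQ ht 0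
  have e : ∀ n, (dualSeq a b 0 (n + (i + 1)) : ℝ) * t ^ (n + (i + 1))
      = t ^ (i + 1) * ((b (i + n) : ℝ) * t ^ n) := by
    intro n
    have : dualSeq a b 0 (n + (i + 1)) = b (i + n) := by
      unfold dualSeq
      rw [if_neg (by omega)]; congr 1; omega
    rw [this, pow_add]; ring
  have h1 : t ^ (i + 1) * PS (fun n => b (i + n)) t ≤ PS (dualSeq a b 0) t := by
    rw [PS, PS, ← tsum_mul_left, ← s.sum_add_tsum_nat_add (i + 1)]
    simp_rw [e]
    have : 0 ≤ ∑ v ∈ range (i + 1), (dualSeq a b 0 v : ℝ) * t ^ v :=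
      Finset.sum_nonneg fun v _ => by have := pow_pos tpos v; positivity
    linarith
  have h2 : (r / 2) ^ (i + 1) ≤ t ^ (i + 1) := pow_le_pow_left₀ (by linarith) t0 _
  have hA : 0 ≤ PS (fun n => b (i + n)) t := PS_nonneg _ tpos.le
  rw [le_div_iff₀ (by positivity)]
  calc _ ≤ PS (fun n => b (i + n)) t * t ^ (i + 1) := mul_le_mul_of_nonneg_left h2 hA
    _ = t ^ (i + 1) * PS (fun n => b (i + n)) t := by ring
    _ ≤ _ := h1.trans hb

/-- Step (4): `P` is bounded below the radius. -/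
lemma P_bdd {H' : ℕ → ℕ → ℕ} (h : GSys κ b a H c D) (h' : GSys κ a b H' c D) (k0 : κ 0 = 1)
    {r : ℝ} (r0 : 0 < r) (r1 : r < 1)
    (hr : r ≤ rad b) (big : r * c * (1 / rad b) < (1 + r) * (1 + 1 / rad b) ^ 2)
    (hr' : r ≤ rad a) (big' : r * c * (1 / rad a) < (1 + r) * (1 + 1 / rad a) ^ 2) :
    ∃ B : ℝ, ∀ t, r / 2 ≤ t → t < r → Good κ t → PS κ t ≤ B := by
  obtain ⟨l, i, hi, hpos⟩ := h.exists_pair r0 r1 hr big
  obtain ⟨B1, hB1⟩ := h'.A_bdd k0 r0 r1 hr' big' i
  obtain ⟨B2, hB2⟩ := h.Q_bdd k0 r0 r1 hr big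
  set S : ℝ := ∑ v ∈ range l, (dualSeq b a l v : ℝ) with hS
  set δ : ℝ := (b i : ℝ) * b l * (1 + r) - r * H i l with hδ
  have δ0 : 0 < δ := by
    have h1 : 0 ≤ r ^ l * (H i 0 : ℝ) := by positivity
    rw [hδ]; linarith
  refine ⟨B1 * (S + B2) / δ, fun t t0 tr ht => ?_⟩
  have tpos : 0 < t := by linarith
  have Lo := h.lower k0 ht l i hi
  have sp := h.split ht l
  have co := h.coef k0 l i hi tr.le
  have a1 := hB1 t t0 tr ht
  have a2 := hB2 t tpos tr ht
  set A := PS (fun n => b (i + n)) t with hA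
  set Q0 := PS (dualSeq b a 0) t with hQ0
  set Ql := PS (dualSeq b a l) t with hQl
  set P := PS κ t with hP
  have P0 : 0 ≤ P := PS_nonneg _ tpos.le
  have Q00 : 0 ≤ Q0 := PS_nonneg _ tpos.le
  have A0 : 0 ≤ A := PS_nonneg _ tpos.le
  have Ql0 : 0 ≤ Ql := PS_nonneg _ tpos.le
  have St : (∑ v ∈ range l, (dualSeq b a l v : ℝ) * t ^ v) ≤ S := by
    refine Finset.sum_le_sum fun v _ => ?_
    have h1 : t ^ v ≤ 1 := pow_le_one₀ tpos.le (by linarith)
    have h2 : (0 : ℝ) ≤ dualSeq b a l v := by positivity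
    nlinarith
  have tl : t ^ l ≤ 1 := pow_le_one₀ tpos.le (by linarith)
  have q : Ql ≤ S + B2 := by
    rw [sp]
    have : t ^ l * Q0 ≤ Q0 := by nlinarith
    linarith
  have B10 : 0 ≤ B1 := A0.trans a1
  have m2 : A * Ql ≤ B1 * (S + B2) := mul_le_mul a1 q Ql0 B10
  have m3 : δ * P ≤ ((b i : ℝ) * b l * (1 + t) - t * H i l) * P :=
    mul_le_mul_of_nonneg_right co P0
  rw [le_div_iff₀ δ0]
  linarith

end analysis


section final
variable {κ b a : ℕ → ℕ} {H H' : ℕ → ℕ → ℕ} {c D : ℕ}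

lemma sub_pow {C : ℕ} (sub : ∀ m n, κ (m + n) ≤ C * κ m * κ n) (n0 k s : ℕ) :
    κ (k * n0 + s) ≤ (C * κ n0) ^ k * κ s := by
  induction k with
  | zero => simp
  | succ k ih =>
    have e : (k + 1) * n0 + s = n0 + (k * n0 + s) := by ring
    rw [e]
    calc κ (n0 + (k * n0 + s)) ≤ C * κ n0 * κ (k * n0 + s) := sub _ _
      _ ≤ C * κ n0 * ((C * κ n0) ^ k * κ s) := Nat.mul_le_mul_left _ ih
      _ = _ := by ring

lemma good_of_small {C : ℕ} (sub : ∀ m n, κ (m + n) ≤ C * κ m * κ n) {n0 : ℕ} (hn : 1 ≤ n0)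
    {t : ℝ} (t0 : 0 ≤ t) (hx : (C : ℝ) * κ n0 * t ^ n0 < 1) : Good κ t := by
  refine ⟨t0, ?_⟩
  have : NeZero n0 := ⟨by omega⟩
  rw [← (Nat.divModEquiv n0).symm.summable_iff]
  set x : ℝ := (C : ℝ) * κ n0 * t ^ n0 with hxd
  have x0 : 0 ≤ x := by positivity
  have s1 : Summable (fun k : ℕ => x ^ k) := summable_geometric_of_lt_one x0 hx
  have s2 : Summable (fun s : Fin n0 => (κ (s : ℕ) : ℝ) * t ^ (s : ℕ)) := Summable.of_finite
  have s3 := s1.mul_of_nonneg s2 (fun k => by positivity)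
    (fun s => by simp only [Pi.zero_apply]; positivity)
  refine Summable.of_nonneg_of_le (fun p => ?_) (fun p => ?_) s3
  · simp only [Function.comp]; positivity
  · obtain ⟨k, s⟩ := p
    have e : (Nat.divModEquiv n0).symm (k, s) = k * n0 + (s : ℕ) := rfl
    simp only [Function.comp, e]
    have h1 : (κ (k * n0 + s) : ℝ) ≤ ((C : ℝ) * κ n0) ^ k * κ s := by
      exact_mod_cast sub_pow sub n0 k s
    calc (κ (k * n0 + s) : ℝ) * t ^ (k * n0 + (s : ℕ))
        ≤ (((C : ℝ) * κ n0) ^ k * κ s) * t ^ (k * n0 + (s : ℕ)) :=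
          mul_le_mul_of_nonneg_right h1 (by positivity)
      _ = x ^ k * (κ s * t ^ (s : ℕ)) := by
          rw [hxd, pow_add, mul_pow ((C : ℝ) * κ n0), mul_comm k n0, pow_mul]; ring

lemma rad_pos {C : ℕ} (kp : ∀ n, 1 ≤ κ n) (k0 : κ 0 = 1)
    (sub : ∀ m n, κ (m + n) ≤ C * κ m * κ n) : 0 < rad κ := by
  have c1 : 1 ≤ C := by
    have := sub 0 0
    rw [Nat.add_zero, k0] at this
    omega
  have cp : (0 : ℝ) < C := by exact_mod_cast (show 0 < C by omega)
  have kp1 : (0 : ℝ) < κ 1 := by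
    have := kp 1; exact_mod_cast (show 0 < κ 1 by omega)
  set s0 : ℝ := 1 / (2 * (C * κ 1)) with hs0
  have s0p : 0 < s0 := by rw [hs0]; positivity
  have hs : Good κ s0 := by
    refine good_of_small sub (n0 := 1) le_rfl s0p.le ?_
    rw [hs0, pow_one]
    have e : (C : ℝ) * κ 1 * (1 / (2 * (C * κ 1))) = 1 / 2 := by
      field_simp
    rw [e]; norm_num
  exact lt_of_lt_of_le s0p (le_rad kp hs)

/-- Submultiplicativity makes the Poincare series of the residue field unbounded. -/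
lemma P_unbdd {C : ℕ} (kp : ∀ n, 1 ≤ κ n) (k0 : κ 0 = 1)
    (sub : ∀ m n, κ (m + n) ≤ C * κ m * κ n) {B : ℝ}
    (hB : ∀ t, rad κ / 2 ≤ t → t < rad κ → Good κ t → PS κ t ≤ B) : False := by
  have r0 := rad_pos kp k0 sub
  have c1 : 1 ≤ C := by
    have := sub 0 0
    rw [Nat.add_zero, k0] at this
    omega
  have cp : (0 : ℝ) < C := by exact_mod_cast (show 0 < C by omega)
  set r : ℝ := rad κ with hr
  have part : ∀ N, ∑ n ∈ range N, (κ n : ℝ) * r ^ n ≤ B := by
    intro N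
    have cont : Continuous (fun t : ℝ => ∑ n ∈ range N, (κ n : ℝ) * t ^ n) := by fun_prop
    have lim : Filter.Tendsto (fun t : ℝ => ∑ n ∈ range N, (κ n : ℝ) * t ^ n)
        (nhdsWithin r (Set.Iio r)) (nhds (∑ n ∈ range N, (κ n : ℝ) * r ^ n)) :=
      (cont.tendsto r).mono_left nhdsWithin_le_nhds
    refine le_of_tendsto lim ?_
    have ev : ∀ᶠ t in nhdsWithin r (Set.Iio r), t ∈ Set.Ico (r / 2) r :=
      Ico_mem_nhdsLT (by linarith)
    filter_upwards [ev] with t ht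
    have g := good_of_lt_rad (f := κ) (t := t) (by linarith [ht.1]) ht.2
    refine le_trans ?_ (hB t ht.1 ht.2 g)
    exact g.2.sum_le_tsum _ (fun n _ => by have := pow_nonneg g.1 n; positivity)
  have sr : Summable (fun n => (κ n : ℝ) * r ^ n) :=
    summable_of_sum_range_le (fun n => by positivity) part
  have lim := sr.tendsto_atTop_zero
  have ev : ∀ᶠ n in Filter.atTop, (κ n : ℝ) * r ^ n < 1 / (2 * C) :=
    lim.eventually (gt_mem_nhds (by positivity))
  obtain ⟨n0, hn0, hn1⟩ := (ev.and (Filter.eventually_ge_atTop 1)).exists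
  have small : (C : ℝ) * κ n0 * r ^ n0 < 1 := by
    have h1 : (C : ℝ) * (κ n0 * r ^ n0) < C * (1 / (2 * C)) := mul_lt_mul_of_pos_left hn0 cp
    have h2 : (C : ℝ) * (1 / (2 * C)) = 1 / 2 := by field_simp
    rw [h2] at h1
    linarith
  have cont : Continuous (fun t : ℝ => (C : ℝ) * κ n0 * t ^ n0) := by fun_prop
  have ev2 : ∀ᶠ t in nhds r, (C : ℝ) * κ n0 * t ^ n0 < 1 :=
    (cont.tendsto r).eventually (gt_mem_nhds small)
  have ev3 : ∀ᶠ t in nhdsWithin r (Set.Ioi r), (C : ℝ) * κ n0 * t ^ n0 < 1 ∧ r < t :=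
    (ev2.filter_mono nhdsWithin_le_nhds).and self_mem_nhdsWithin
  obtain ⟨t, ht1, ht2⟩ := ev3.exists
  have gt : Good κ t := good_of_small sub hn1 (by linarith) ht1
  have := le_rad kp gt
  linarith

/-- The general contradiction: both the module and its dual satisfy the inequality `big`. -/
theorem GSys.false_of_big (h : GSys κ b a H c D) (h' : GSys κ a b H' c D) (k0 : κ 0 = 1) {C : ℕ}
    (sub : ∀ m n, κ (m + n) ≤ C * κ m * κ n) (r1 : rad κ < 1)
    (big : rad κ * c * (1 / rad b) < (1 + rad κ) * (1 + 1 / rad b) ^ 2)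
    (big' : rad κ * c * (1 / rad a) < (1 + rad κ) * (1 + 1 / rad a) ^ 2) : False := by
  have r0 := rad_pos h.kap1 k0 sub
  obtain ⟨B, hB⟩ := P_bdd h h' k0 r0 r1 h.rad_le big h'.rad_le big'
  exact P_unbdd h.kap1 k0 sub hB

/-- The inequality `(1+x)^3 > c x` implies the inequality of `false_of_big`. -/
lemma GSys.big_of_cube (h : GSys κ b a H c D) (r0 : 0 < rad κ)
    (big : (c : ℝ) * (1 / rad b) < (1 + 1 / rad b) ^ 3) :
    rad κ * c * (1 / rad b) < (1 + rad κ) * (1 + 1 / rad b) ^ 2 := by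
  have hr := h.rad_le
  have rb0 : 0 < rad b := lt_of_lt_of_le r0 hr
  set r : ℝ := rad κ
  set x : ℝ := 1 / rad b with hx
  have x0 : 0 < x := by positivity
  have xr : x * r ≤ 1 := by
    rw [hx, one_div, ← div_eq_inv_mul, div_le_one rb0]; exact hr
  have h1 : r * (c * x) < r * (1 + x) ^ 3 := mul_lt_mul_of_pos_left big r0
  have h2 : r * (1 + x) ^ 3 ≤ (1 + r) * (1 + x) ^ 2 := by
    have : r * (1 + x) ≤ 1 + r := by nlinarith
    calc r * (1 + x) ^ 3 = (r * (1 + x)) * (1 + x) ^ 2 := by ring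
      _ ≤ _ := mul_le_mul_of_nonneg_right this (by positivity)
  linarith

/-- The inequality `c < 4 (1 + 1/r)` implies the inequality of `false_of_big`. -/
lemma GSys.big_of_curv (h : GSys κ b a H c D) (r0 : 0 < rad κ)
    (big : (c : ℝ) * rad κ < 4 * (1 + rad κ)) :
    rad κ * c * (1 / rad b) < (1 + rad κ) * (1 + 1 / rad b) ^ 2 := by
  have hr := h.rad_le
  have rb0 : 0 < rad b := lt_of_lt_of_le r0 hr
  set r : ℝ := rad κ
  set x : ℝ := 1 / rad b with hx
  have x0 : 0 < x := by positivity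
  have h1 : (c * r) * x < 4 * (1 + r) * x := mul_lt_mul_of_pos_right big x0
  have h2 : (1 + r) * (4 * x) ≤ (1 + r) * (1 + x) ^ 2 :=
    mul_le_mul_of_nonneg_left (by nlinarith [sq_nonneg (x - 1)]) (by linarith)
  linarith

/-- The main analytic statement, with the embedding dimension `κ 1`. -/
theorem GSys.false (h : GSys κ b a H c D) (h' : GSys κ a b H' c D) (k0 : κ 0 = 1)
    (k1 : c + 5 ≤ 4 * κ 1) {C : ℕ} (sub : ∀ m n, κ (m + n) ≤ C * κ m * κ n) : False := by
  have r0 := rad_pos h.kap1 k0 sub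
  have rb : 0 < rad b := lt_of_lt_of_le r0 h.rad_le
  have ra : 0 < rad a := lt_of_lt_of_le r0 h'.rad_le
  have xb : 1 ≤ 1 / rad b := by rw [one_le_div rb]; exact rad_le_one h.b1
  have xa : 1 ≤ 1 / rad a := by rw [one_le_div ra]; exact rad_le_one h.a1
  obtain ⟨b1, big⟩ := arith xb k1 (h.stepOne k0 rb)
  obtain ⟨-, big'⟩ := arith xa k1 (h'.stepOne k0 ra)
  refine GSys.false_of_big h h' k0 sub ?_ (h.big_of_cube r0 big) (h'.big_of_cube r0 big')
  refine lt_of_le_of_lt h.rad_le ?_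
  rw [one_lt_div rb] at b1
  exact b1

/-- The second analytic statement, with the growth `1 / rad κ` of the residue field. -/
theorem GSys.false_curv (h : GSys κ b a H c D) (h' : GSys κ a b H' c D) (k0 : κ 0 = 1)
    (r1 : rad κ < 1) (cr : (c : ℝ) * rad κ < 4 * (1 + rad κ)) {C : ℕ}
    (sub : ∀ m n, κ (m + n) ≤ C * κ m * κ n) : False := by
  have r0 := rad_pos h.kap1 k0 sub
  exact GSys.false_of_big h h' k0 sub r1 (h.big_of_curv r0 cr) (h'.big_of_curv r0 cr)

end final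

end SAC75
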