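import Pool.Agent.Lib.SAC75.Avg

/-!
Real analysis for the theorem: a Gorenstein artinian local ring of length `c` and embedding
dimension `e` with `c < 4 (e - 1)` has no non-free module with eventually vanishing
self-extensions. `GSys` are the inequalities between the Betti numbers `b` of a module, `a` of
its dual, `κ` of the residue field and the lengths `H i l` of the modules of homomorphisms
between syzygies. `GSys.false` shows that they are contradictory.
-/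

namespace SAC75

open Finset

/-- Betti numbers of the dual of the `(l+1)`-st syzygy. -/
def dualSeq (b a : ℕ → ℕ) (l v : ℕ) : ℕ := if v ≤ l then b (l - v) else a (v - l - 1)

/-- The system of inequalities. -/
structure GSys (κ b a : ℕ → ℕ) (H : ℕ → ℕ → ℕ) (c D : ℕ) : Prop where
  b1 : ∀ n, 1 ≤ b n
  a1 : ∀ n, 1 ≤ a n
  low : ∀ l i n, l + D ≤ i →
    b i * b l * (κ (n + 1) + κ n) ≤ (∑ p ∈ antidiagonal (n + 1), b (i + p.1) * dualSeq b a l p.2)
      + H i l * κ n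
  up : ∀ l i n, l + D ≤ i →
    ∑ p ∈ antidiagonal n, b (i + p.1) * dualSeq b a l p.2 ≤ H i l * κ n
  sq : ∀ l i, l + D ≤ i →
    H i l + H (i + 1) l + H i (l + 1) + H (i + 1) (l + 1) ≤ c * (b i * b (l + 1))
  bd : ∀ l i, l + D ≤ i → H i l ≤ c * (b i * b l)

section basics
variable {κ b a : ℕ → ℕ} {H : ℕ → ℕ → ℕ} {c D : ℕ}

lemma dualSeq_zero (b a : ℕ → ℕ) (l : ℕ) : dualSeq b a l 0 = b l := by simp [dualSeq]

lemma dualSeq_add (b a : ℕ → ℕ) (l v : ℕ) : dualSeq b a l (l + v) = dualSeq b a 0 v := by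
  unfold dualSeq
  rcases Nat.eq_zero_or_pos v with h | h
  · subst h; simp
  · rw [if_neg (by omega), if_neg (by omega)]
    congr 1; omega

lemma GSys.dual1 (h : GSys κ b a H c D) (l v : ℕ) : 1 ≤ dualSeq b a l v := by
  unfold dualSeq; split_ifs
  · exact h.b1 _
  · exact h.a1 _

lemma GSys.bbound (h : GSys κ b a H c D) (l i n : ℕ) (hi : l + D ≤ i) :
    b (i + n) ≤ H i l * κ n := by
  refine le_trans ?_ (h.up l i n hi)
  have : b (i + n) * dualSeq b a l 0 ≤ ∑ p ∈ antidiagonal n, b (i + p.1) * dualSeq b a l p.2 :=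
    Finset.single_le_sum (f := fun p : ℕ × ℕ => b (i + p.1) * dualSeq b a l p.2)
      (fun _ _ => Nat.zero_le _) (mem_antidiagonal.2 (by simp) : ((n, 0) : ℕ × ℕ) ∈ antidiagonal n)
  refine le_trans ?_ this
  exact Nat.le_mul_of_pos_right _ (h.dual1 l 0)

lemma GSys.dbound (h : GSys κ b a H c D) (l i n : ℕ) (hi : l + D ≤ i) :
    dualSeq b a l n ≤ H i l * κ n := by
  refine le_trans ?_ (h.up l i n hi)
  have : b (i + 0) * dualSeq b a l n ≤ ∑ p ∈ antidiagonal n, b (i + p.1) * dualSeq b a l p.2 :=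
    Finset.single_le_sum (f := fun p : ℕ × ℕ => b (i + p.1) * dualSeq b a l p.2)
      (fun _ _ => Nat.zero_le _) (mem_antidiagonal.2 (by simp) : ((0, n) : ℕ × ℕ) ∈ antidiagonal n)
  refine le_trans ?_ this
  exact Nat.le_mul_of_pos_left _ (h.b1 _)

lemma GSys.kap1 (h : GSys κ b a H c D) (n : ℕ) : 1 ≤ κ n := by
  have h1 := h.bbound 0 D n (by omega)
  have h2 := h.b1 (D + n)
  rcases Nat.eq_zero_or_pos (κ n) with h0 | h0
  · rw [h0] at h1; omega
  · exact h0

lemma GSys.Hge (h : GSys κ b a H c D) (k0 : κ 0 = 1) (l i : ℕ) (hi : l + D ≤ i) :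
    b i * b l ≤ H i l := by
  have := h.up l i 0 hi
  simpa [dualSeq_zero, k0] using this

end basics

section power
variable {κ b a : ℕ → ℕ} {H : ℕ → ℕ → ℕ} {c D : ℕ}

/-- Summability of the power series with coefficients `κ` at `t`. -/
def Good (κ : ℕ → ℕ) (t : ℝ) : Prop := 0 ≤ t ∧ Summable (fun n => (κ n : ℝ) * t ^ n)

noncomputable def PS (f : ℕ → ℕ) (t : ℝ) : ℝ := ∑' n, (f n : ℝ) * t ^ n

lemma summable_of_le {f κ : ℕ → ℕ} {t : ℝ} (C : ℕ) (ht : Good κ t) (h : ∀ n, f n ≤ C * κ n) :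
    Summable (fun n => (f n : ℝ) * t ^ n) := by
  refine Summable.of_nonneg_of_le (fun n => by have := pow_nonneg ht.1 n; positivity)
    (fun n => ?_) (ht.2.mul_left (C : ℝ))
  have h1 : (f n : ℝ) ≤ C * κ n := by exact_mod_cast h n
  calc (f n : ℝ) * t ^ n ≤ (C * κ n) * t ^ n := mul_le_mul_of_nonneg_right h1 (pow_nonneg ht.1 n)
    _ = C * (κ n * t ^ n) := by ring

lemma Good.mono {κ : ℕ → ℕ} {s t : ℝ} (h : Good κ t) (hs : 0 ≤ s) (hst : s ≤ t) : Good κ s := by
  refine ⟨hs, Summable.of_nonneg_of_le (fun n => by have := pow_nonneg hs n; positivity)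
    (fun n => ?_) h.2⟩
  exact mul_le_mul_of_nonneg_left (pow_le_pow_left₀ hs hst n) (by positivity)

lemma PS_nonneg (f : ℕ → ℕ) {t : ℝ} (ht : 0 ≤ t) : 0 ≤ PS f t :=
  tsum_nonneg fun n => by have := pow_nonneg ht n; positivity

lemma GSys.sumA (h : GSys κ b a H c D) {t : ℝ} (ht : Good κ t) (l i : ℕ) (hi : l + D ≤ i) :
    Summable (fun n => (b (i + n) : ℝ) * t ^ n) :=
  summable_of_le (f := fun n => b (i + n)) _ ht (fun n => h.bbound l i n hi)

lemma GSys.sumQ (h : GSys κ b a H c D) {t : ℝ} (ht : Good κ t) (l : ℕ) :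
    Summable (fun n => (dualSeq b a l n : ℝ) * t ^ n) :=
  summable_of_le (f := fun n => dualSeq b a l n) _ ht (fun n => h.dbound l (l + D) n le_rfl)

lemma GSys.conv (h : GSys κ b a H c D) {t : ℝ} (ht : Good κ t) (l i : ℕ) (hi : l + D ≤ i) :
    Summable (fun n => ((∑ p ∈ antidiagonal n, b (i + p.1) * dualSeq b a l p.2 : ℕ) : ℝ) * t ^ n) ∧
    PS (fun n => b (i + n)) t * PS (dualSeq b a l) t
      = ∑' n, ((∑ p ∈ antidiagonal n, b (i + p.1) * dualSeq b a l p.2 : ℕ) : ℝ) * t ^ n := by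
  have h1 := h.sumA ht l i hi
  have h2 := h.sumQ ht l
  have e : ∀ n, ((∑ p ∈ antidiagonal n, b (i + p.1) * dualSeq b a l p.2 : ℕ) : ℝ) * t ^ n
      = ∑ p ∈ antidiagonal n, ((b (i + p.1) : ℝ) * t ^ p.1) * ((dualSeq b a l p.2 : ℝ) * t ^ p.2) := by
    intro n
    push_cast
    rw [Finset.sum_mul]
    refine Finset.sum_congr rfl fun p hp => ?_
    rw [← mem_antidiagonal.1 hp, pow_add]; ring
  have n1 : Summable (fun n => ‖(b (i + n) : ℝ) * t ^ n‖) := h1.norm
  have n2 : Summable (fun n => ‖(dualSeq b a l n : ℝ) * t ^ n‖) := h2.norm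
  constructor
  · simp_rw [e]
    exact (summable_norm_sum_mul_antidiagonal_of_summable_norm n1 n2).of_norm
  · simp_rw [e]
    exact tsum_mul_tsum_eq_tsum_sum_antidiagonal_of_summable_norm n1 n2

lemma GSys.upper (h : GSys κ b a H c D) {t : ℝ} (ht : Good κ t) (l i : ℕ) (hi : l + D ≤ i) :
    PS (fun n => b (i + n)) t * PS (dualSeq b a l) t ≤ (H i l : ℝ) * PS κ t := by
  obtain ⟨s, e⟩ := h.conv ht l i hi
  rw [e, PS, ← tsum_mul_left]
  refine s.tsum_le_tsum (fun n => ?_) (ht.2.mul_left _)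
  have h1 : ((∑ p ∈ antidiagonal n, b (i + p.1) * dualSeq b a l p.2 : ℕ) : ℝ)
      ≤ (H i l : ℝ) * κ n := by
    exact_mod_cast h.up l i n hi
  calc _ ≤ ((H i l : ℝ) * κ n) * t ^ n :=
        mul_le_mul_of_nonneg_right h1 (pow_nonneg ht.1 n)
    _ = _ := by ring

lemma GSys.lower (h : GSys κ b a H c D) (k0 : κ 0 = 1) {t : ℝ} (ht : Good κ t) (l i : ℕ)
    (hi : l + D ≤ i) :
    ((b i : ℝ) * b l * (1 + t) - t * H i l) * PS κ t
      ≤ PS (fun n => b (i + n)) t * PS (dualSeq b a l) t := by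
  obtain ⟨s, e⟩ := h.conv ht l i hi
  have s1 : Summable (fun n => (κ (n + 1) : ℝ) * t ^ (n + 1)) :=
    (summable_nat_add_iff (f := fun n => (κ n : ℝ) * t ^ n) 1).2 ht.2
  have s2 := (summable_nat_add_iff (f := fun n =>
    ((∑ p ∈ antidiagonal n, b (i + p.1) * dualSeq b a l p.2 : ℕ) : ℝ) * t ^ n) 1).2 s
  rw [e]
  have hP : PS κ t = (κ 0 : ℝ) * t ^ 0 + ∑' n, (κ (n + 1) : ℝ) * t ^ (n + 1) := by
    rw [PS, ht.2.tsum_eq_zero_add]
  have hP' : PS κ t = ∑' n, (κ n : ℝ) * t ^ n := rfl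
  rw [s.tsum_eq_zero_add]
  have e0 : ((∑ p ∈ antidiagonal 0, b (i + p.1) * dualSeq b a l p.2 : ℕ) : ℝ) * t ^ 0
      = b i * b l := by
    simp [dualSeq_zero]
  rw [e0]
  have main : ∑' n, (((b i : ℝ) * b l) * ((κ (n + 1) : ℝ) * t ^ (n + 1))
        + ((b i : ℝ) * b l * t) * ((κ n : ℝ) * t ^ n))
      ≤ ∑' n, ((((∑ p ∈ antidiagonal (n + 1), b (i + p.1) * dualSeq b a l p.2 : ℕ) : ℝ)
          * t ^ (n + 1)) + (t * (H i l : ℝ)) * ((κ n : ℝ) * t ^ n)) := by
    refine ((s1.mul_left _).add (ht.2.mul_left _)).tsum_le_tsum (fun n => ?_)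
      (s2.add (ht.2.mul_left _))
    have h1 : ((b i : ℝ) * b l) * (κ (n + 1) + κ n)
        ≤ ((∑ p ∈ antidiagonal (n + 1), b (i + p.1) * dualSeq b a l p.2 : ℕ) : ℝ)
          + H i l * κ n := by
      exact_mod_cast h.low l i n hi
    have h2 := mul_le_mul_of_nonneg_right h1 (pow_nonneg ht.1 (n + 1))
    calc _ = ((b i : ℝ) * b l) * (κ (n + 1) + κ n) * t ^ (n + 1) := by ring
      _ ≤ _ := h2
      _ = _ := by ring
  rw [(s1.mul_left _).tsum_add (ht.2.mul_left _), tsum_mul_left, tsum_mul_left,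
    (s2.tsum_add (ht.2.mul_left _)), tsum_mul_left] at main
  rw [← hP'] at main
  have hk : (κ 0 : ℝ) = 1 := by rw [k0]; simp
  have h3 : ∑' n, (κ (n + 1) : ℝ) * t ^ (n + 1) = PS κ t - 1 := by
    rw [hP, hk]; ring
  rw [h3] at main
  linarith

end power


section radius
variable {κ b a : ℕ → ℕ} {H : ℕ → ℕ → ℕ} {c D : ℕ}

/-- radius of convergence -/
noncomputable def rad (f : ℕ → ℕ) : ℝ := sSup {t | Good f t}

lemma rad_bdd {f : ℕ → ℕ} (h1 : ∀ n, 1 ≤ f n) : ∀ t, Good f t → t ≤ 1 := by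
  intro t ht
  by_contra hlt
  push Not at hlt
  have lim := ht.2.tendsto_atTop_zero
  have ge : ∀ n, (1 : ℝ) ≤ (f n : ℝ) * t ^ n := by
    intro n
    have h2 : (1 : ℝ) ≤ f n := by exact_mod_cast h1 n
    have h3 : 1 ≤ t ^ n := one_le_pow₀ hlt.le
    nlinarith
  have := ge_of_tendsto' lim ge
  norm_num at this

lemma le_rad {f : ℕ → ℕ} (h1 : ∀ n, 1 ≤ f n) {t : ℝ} (ht : Good f t) : t ≤ rad f :=
  le_csSup ⟨1, fun t ht => rad_bdd h1 t ht⟩ ht

lemma good_zero (f : ℕ → ℕ) : Good f 0 := by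
  refine ⟨le_rfl, ?_⟩
  refine summable_of_ne_finset_zero (s := {0}) fun n hn => ?_
  have : n ≠ 0 := by simpa using hn
  simp [this]

lemma good_of_lt_rad {f : ℕ → ℕ} {t : ℝ} (t0 : 0 ≤ t) (ht : t < rad f) :
    Good f t := by
  obtain ⟨s, hs, hts⟩ := exists_lt_of_lt_csSup ⟨0, good_zero f⟩ ht
  exact Good.mono hs t0 hts.le

lemma rad_le_one {f : ℕ → ℕ} (h1 : ∀ n, 1 ≤ f n) : rad f ≤ 1 :=
  csSup_le ⟨0, good_zero f⟩ (fun t ht => rad_bdd h1 t ht)

lemma unbounded_of_gt {f : ℕ → ℕ} (h1 : ∀ n, 1 ≤ f n) {t : ℝ} (ht : rad f < t) (C : ℝ) :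
    ∃ n, C < (f n : ℝ) * t ^ n := by
  by_contra hcon
  push Not at hcon
  have r0 : 0 ≤ rad f := le_rad h1 (good_zero f)
  have t0 : 0 < t := lt_of_le_of_lt r0 ht
  obtain ⟨s, s1, s2⟩ := exists_between ht
  have s0 : 0 ≤ s := by linarith
  have : Good f s := by
    refine ⟨s0, ?_⟩
    have q0 : 0 ≤ s / t := by positivity
    have q1 : s / t < 1 := by rw [div_lt_one t0]; exact s2
    refine Summable.of_nonneg_of_le (fun n => by positivity) (fun n => ?_)
      ((summable_geometric_of_lt_one q0 q1).mul_left C)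
    have h2 : (f n : ℝ) * s ^ n = ((f n : ℝ) * t ^ n) * (s / t) ^ n := by
      rw [div_pow]; field_simp
    rw [h2]
    exact mul_le_mul_of_nonneg_right (hcon n) (pow_nonneg q0 n)
  have := le_rad h1 this
  linarith

lemma good_of_shift {f : ℕ → ℕ} {t : ℝ} (t0 : 0 ≤ t) (i : ℕ)
    (h : Summable (fun n => (f (i + n) : ℝ) * t ^ n)) : Good f t := by
  refine ⟨t0, ?_⟩
  refine (summable_nat_add_iff (f := fun n => (f n : ℝ) * t ^ n) i).1 ?_
  refine (h.mul_left (t ^ i)).congr fun n => ?_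
  rw [add_comm n i, pow_add]; ring

lemma GSys.rad_le (h : GSys κ b a H c D) : rad κ ≤ rad b := by
  refine csSup_le ⟨0, good_zero κ⟩ fun t ht => ?_
  exact le_rad h.b1 (good_of_shift ht.1 D (h.sumA ht 0 D (by omega)))

/-- The averaging lemma for a sequence of positive naturals. -/
lemma avgN {f : ℕ → ℕ} (h1 : ∀ n, 1 ≤ f n) (r0 : 0 < rad f) (K : ℕ) (c : ℕ → ℝ) (L : ℕ)
    (h : ∀ i, L ≤ i → 0 ≤ ∑ k ∈ range K, c k * (f (i + k) : ℝ)) :
    0 ≤ ∑ k ∈ range K, c k * (1 / rad f) ^ k :=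
  avg (b := fun n => (f n : ℝ)) (fun n => by positivity) r0
    (fun t t0 ht => (good_of_lt_rad t0.le ht).2)
    (fun t ht C => unbounded_of_gt h1 ht C) K c L h

/-- Averaging in two variables, for polynomials of degree at most two in each variable. -/
lemma avg2 {f : ℕ → ℕ} (h1 : ∀ n, 1 ≤ f n) (r0 : 0 < rad f) (C : ℕ → ℕ → ℝ) (L E : ℕ)
    (h : ∀ l i, L ≤ l → l + E ≤ i →
      0 ≤ ∑ k ∈ range 3, (∑ m ∈ range 3, C k m * (f (l + m) : ℝ)) * (f (i + k) : ℝ)) :
    0 ≤ ∑ m ∈ range 3, (∑ k ∈ range 3, C k m * (1 / rad f) ^ k) * (1 / rad f) ^ m := by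
  refine avgN h1 r0 3 (fun m => ∑ k ∈ range 3, C k m * (1 / rad f) ^ k) L fun l hl => ?_
  have := avgN h1 r0 3 (fun k => ∑ m ∈ range 3, C k m * (f (l + m) : ℝ)) (l + E)
    (fun i hi => h l i hl hi)
  refine le_of_le_of_eq this ?_
  simp only [Finset.sum_range_succ, Finset.sum_range_zero]
  ring

/-- Step (1). -/
lemma GSys.stepOne (h : GSys κ b a H c D) (k0 : κ 0 = 1) (r0 : 0 < rad b) :
    ((κ 1 : ℝ) + 1) * (1 / rad b) * (1 + 1 / rad b) ^ 2
      ≤ (1 + (1 / rad b) ^ 2) * (1 + 1 / rad b) ^ 2 + c * (1 / rad b) ^ 2 := by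
  set e : ℝ := (κ 1 : ℝ) with he
  set C : ℕ → ℕ → ℝ := fun k m =>
    -- coefficient of `b (i+k) * b (l+m)`
    (if (k = 1 ∨ k = 2) ∧ (m = 1 ∨ m = 2) then 1 else 0)
    + (if (k = 0 ∨ k = 1) ∧ (m = 0 ∨ m = 1) then 1 else 0)
    + (if k = 0 ∧ m = 2 then (c : ℝ) else 0)
    - (if (k = 0 ∨ k = 1) ∧ (m = 1 ∨ m = 2) then (e + 1) else 0) with hC
  have key := avg2 h.b1 r0 C 0 (D + 2) (by
    intro l i _ hi
    have L1 := h.low (l + 1) i 0 (by omega)
    have L2 := h.low (l + 1) (i + 1) 0 (by omega)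
    have L3 := h.low (l + 1 + 1) i 0 (by omega)
    have L4 := h.low (l + 1 + 1) (i + 1) 0 (by omega)
    have S := h.sq (l + 1) i (by omega)
    have an : ∀ x y : ℕ, ∑ p ∈ antidiagonal (0 + 1), b (x + p.1) * dualSeq b a (y + 1) p.2
        = b x * b y + b (x + 1) * b (y + 1) := by
      intro x y
      rw [Finset.Nat.antidiagonal_succ]
      simp [dualSeq]
    rw [an, k0] at L1 L2 L3 L4
    simp only [mul_one, zero_add] at L1 L2 L3 L4
    have L1' : (b i : ℝ) * b (l + 1) * (e + 1) ≤ b i * b l + b (i + 1) * b (l + 1)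
        + H i (l + 1) := by rw [he]; exact_mod_cast L1
    have L2' : (b (i + 1) : ℝ) * b (l + 1) * (e + 1) ≤ b (i + 1) * b l
        + b (i + 1 + 1) * b (l + 1) + H (i + 1) (l + 1) := by rw [he]; exact_mod_cast L2
    have L3' : (b i : ℝ) * b (l + 1 + 1) * (e + 1) ≤ b i * b (l + 1)
        + b (i + 1) * b (l + 1 + 1) + H i (l + 1 + 1) := by rw [he]; exact_mod_cast L3
    have L4' : (b (i + 1) : ℝ) * b (l + 1 + 1) * (e + 1) ≤ b (i + 1) * b (l + 1)
        + b (i + 1 + 1) * b (l + 1 + 1) + H (i + 1) (l + 1 + 1) := by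
      rw [he]; exact_mod_cast L4
    have S' : (H i (l + 1) : ℝ) + H (i + 1) (l + 1) + H i (l + 1 + 1) + H (i + 1) (l + 1 + 1)
        ≤ c * (b i * b (l + 1 + 1)) := by exact_mod_cast S
    simp only [hC, Finset.sum_range_succ, Finset.sum_range_zero]
    norm_num
    have e1 : b (l + 1 + 1) = b (l + 2) := rfl
    have e2 : b (i + 1 + 1) = b (i + 2) := rfl
    rw [e1] at L3' L4' S'
    rw [e2] at L2' L4'
    linarith)
  generalize 1 / rad b = x at key ⊢
  simp only [hC, Finset.sum_range_succ, Finset.sum_range_zero] at key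
  norm_num at key
  linarith

/-- Elementary inequality of step (2). -/
lemma arith {x : ℝ} {c e : ℕ} (x1 : 1 ≤ x) (hce : c + 5 ≤ 4 * e)
    (h : ((e : ℝ) + 1) * x * (1 + x) ^ 2 ≤ (1 + x ^ 2) * (1 + x) ^ 2 + c * x ^ 2) :
    1 < x ∧ (c : ℝ) * x < (1 + x) ^ 3 := by
  have hce' : (c : ℝ) + 5 ≤ 4 * e := by exact_mod_cast hce
  have x0 : 0 < x := by linarith
  constructor
  · rcases eq_or_lt_of_le x1 with h0 | h0
    · rw [← h0] at h; nlinarith
    · exact h0
  by_contra hcon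
  push Not at hcon
  obtain ⟨y, hy⟩ : ∃ y : ℝ, y * x = (1 + x) ^ 2 := ⟨(1 + x) ^ 2 / x, by field_simp⟩
  have y4 : 4 ≤ y := by
    have : 4 * x ≤ y * x := by rw [hy]; nlinarith [sq_nonneg (x - 1)]
    exact le_of_mul_le_mul_right this x0
  -- c ≥ y (1 + x)
  have a1 : y * (1 + x) ≤ c := by
    have : (y * (1 + x)) * x ≤ c * x := by
      calc (y * (1 + x)) * x = (y * x) * (1 + x) := by ring
        _ = (1 + x) ^ 3 := by rw [hy]; ring
        _ ≤ _ := hcon
    exact le_of_mul_le_mul_right this x0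
  -- c ≥ y (e + 3 - y)
  have a2 : y * (e + 3 - y) ≤ c := by
    have e1 : (y * (e + 3 - y)) * x ^ 2 = (y * x) * ((e + 3) * x - y * x) := by ring
    have : (y * (e + 3 - y)) * x ^ 2 ≤ c * x ^ 2 := by
      rw [e1, hy]; nlinarith
    exact le_of_mul_le_mul_right this (by positivity)
  have a3 : 1 ≤ (y - 4) * (y - e + 1) := by nlinarith
  have hq : x ^ 2 + 1 = (y - 2) * x := by nlinarith
  rcases Nat.lt_or_ge e 4 with he | he
  · have : (e : ℝ) ≤ 3 := by exact_mod_cast (show e ≤ 3 by omega)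
    nlinarith
  rcases Nat.lt_or_ge e 7 with he7 | he7
  · have : e = 4 ∨ e = 5 ∨ e = 6 := by omega
    rcases this with rfl | rfl | rfl
    · norm_num at a3 hce'
      have y1 : (4.6 : ℝ) ≤ y := by
        by_contra hh; push Not at hh; nlinarith
      have z1 : 2 ≤ x := by
        by_contra hh; push Not at hh; nlinarith
      nlinarith
    · norm_num at a3 hce'
      have y1 : (5 : ℝ) ≤ y := by
        by_contra hh; push Not at hh; nlinarith
      have z1 : 2.6 ≤ x := by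
        by_contra hh; push Not at hh; nlinarith
      nlinarith
    · norm_num at a3 hce'
      have y1 : (5.6 : ℝ) ≤ y := by
        by_contra hh; push Not at hh; nlinarith
      have z1 : 3.2 ≤ x := by
        by_contra hh; push Not at hh; nlinarith
      nlinarith
  · have he' : (7 : ℝ) ≤ e := by exact_mod_cast he7
    have y5 : 4 < y := by
      rcases eq_or_lt_of_le y4 with h0 | h0
      · rw [← h0] at a3; norm_num at a3
      · exact h0
    have y6 : (e : ℝ) - 1 < y := by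
      by_contra hh; push Not at hh
      have : (y - 4) * (y - e + 1) ≤ 0 :=
        mul_nonpos_of_nonneg_of_nonpos (by linarith) (by linarith)
      linarith
    have z1 : 3.7 ≤ x := by
      by_contra hh; push Not at hh; nlinarith
    nlinarith

end radius

end SAC75
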