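import Pool.Agent.Lib.SAC84.KapB84
import Pool.Agent.Lib.SAC3.Exists3

/-!
Lengths of `Ext` modules in the first variable, for modules over artinian local rings.
-/

set_option autoImplicit false

open CategoryTheory IsLocalRing

universe u

namespace SAC75

open SAC84

section first

variable {R : Type u} [CommRing R] [HasExt.{u} (ModuleCat.{u} R)]
variable {K F X Y Z : Type u} [AddCommGroup K] [Module R K] [AddCommGroup F] [Module R F]
  [AddCommGroup X] [Module R X] [AddCommGroup Y] [Module R Y] [AddCommGroup Z] [Module R Z]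

/-- The map on `Ext` induced by a linear map in the first variable. -/
noncomputable def qf (Y : Type u) [AddCommGroup Y] [Module R Y] (g : F →ₗ[R] X) (n : ℕ) :
    Abelian.Ext (ModuleCat.of R X) (ModuleCat.of R Y) n →ₗ[R]
      Abelian.Ext (ModuleCat.of R F) (ModuleCat.of R Y) n :=
  (Abelian.Ext.mk₀ (ModuleCat.ofHom g)).precompOfLinear R (ModuleCat.of R Y) (zero_add n)

lemma qf_apply (g : F →ₗ[R] X) (n : ℕ)
    (y : Abelian.Ext (ModuleCat.of R X) (ModuleCat.of R Y) n) :
    qf Y g n y = (Abelian.Ext.mk₀ (ModuleCat.ofHom g)).comp y (zero_add n) := rfl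

lemma qf_comp (f : K →ₗ[R] F) (g : F →ₗ[R] X) (n : ℕ)
    (y : Abelian.Ext (ModuleCat.of R X) (ModuleCat.of R Y) n) :
    qf Y (g ∘ₗ f) n y = qf Y f n (qf Y g n y) := by
  rw [qf_apply, qf_apply, qf_apply, ModuleCat.ofHom_comp, Abelian.Ext.mk₀_comp_mk₀_assoc]

lemma qf_id (n : ℕ) (y : Abelian.Ext (ModuleCat.of R X) (ModuleCat.of R Y) n) :
    qf Y (LinearMap.id : X →ₗ[R] X) n y = y := by
  rw [qf_apply]
  exact Abelian.Ext.mk₀_id_comp y

lemma qf_zero (n : ℕ) (y : Abelian.Ext (ModuleCat.of R X) (ModuleCat.of R Y) n) :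
    qf Y (0 : K →ₗ[R] X) n y = 0 := by
  rw [qf_apply]
  have : ModuleCat.ofHom (0 : K →ₗ[R] X) = 0 := rfl
  rw [this, Abelian.Ext.mk₀_zero, Abelian.Ext.zero_comp]

lemma qf_add (f g : K →ₗ[R] X) (n : ℕ)
    (y : Abelian.Ext (ModuleCat.of R X) (ModuleCat.of R Y) n) :
    qf Y (f + g) n y = qf Y f n y + qf Y g n y := by
  rw [qf_apply, qf_apply, qf_apply]
  have : ModuleCat.ofHom (f + g) = ModuleCat.ofHom f + ModuleCat.ofHom g := rfl
  rw [this, Abelian.Ext.mk₀_add, Abelian.Ext.add_comp]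

lemma qf_sum {ι : Type} (s : Finset ι) (f : ι → (K →ₗ[R] X)) (n : ℕ)
    (y : Abelian.Ext (ModuleCat.of R X) (ModuleCat.of R Y) n) :
    qf Y (∑ i ∈ s, f i) n y = ∑ i ∈ s, qf Y (f i) n y := by
  classical
  induction s using Finset.induction_on with
  | empty => rw [Finset.sum_empty, Finset.sum_empty, qf_zero]
  | insert a s ha ih => rw [Finset.sum_insert ha, Finset.sum_insert ha, qf_add, ih]

/-- `Ext` out of a finite power. -/
noncomputable def piE' (m n : ℕ) :
    Abelian.Ext (ModuleCat.of R (Fin m → Z)) (ModuleCat.of R Y) n ≃ₗ[R]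
      (Fin m → Abelian.Ext (ModuleCat.of R Z) (ModuleCat.of R Y) n) where
  toFun x i := qf Y (LinearMap.single R (fun _ : Fin m => Z) i) n x
  map_add' x y := by
    ext i
    exact map_add _ x y
  map_smul' a x := by
    ext i
    exact map_smul _ a x
  invFun v := ∑ i, qf Y (LinearMap.proj (R := R) (φ := fun _ : Fin m => Z) i) n (v i)
  left_inv x := by
    have h : (∑ i, LinearMap.single R (fun _ : Fin m => Z) i ∘ₗ
        LinearMap.proj (R := R) (φ := fun _ : Fin m => Z) i) = LinearMap.id := by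
      apply LinearMap.ext
      intro v
      rw [LinearMap.sum_apply]
      exact LinearMap.sum_single_apply (fun _ : Fin m => Z) v
    conv_rhs => rw [← qf_id n x, ← h, qf_sum]
    exact Finset.sum_congr rfl fun i _ => (qf_comp _ _ _ _).symm
  right_inv v := by
    funext j
    change qf Y (LinearMap.single R (fun _ : Fin m => Z) j) n
      (∑ i, qf Y (LinearMap.proj (R := R) (φ := fun _ : Fin m => Z) i) n (v i)) = v j
    rw [map_sum, Finset.sum_eq_single j]
    · rw [← qf_comp]
      have : LinearMap.proj (R := R) (φ := fun _ : Fin m => Z) j ∘ₗ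
          LinearMap.single R (fun _ : Fin m => Z) j = LinearMap.id := by
        ext y
        simp
      rw [this, qf_id]
    · intro i _ hij
      rw [← qf_comp]
      have : LinearMap.proj (R := R) (φ := fun _ : Fin m => Z) i ∘ₗ
          LinearMap.single R (fun _ : Fin m => Z) j = 0 := by
        ext y
        simp [hij]
      rw [this, qf_zero]
    · intro h
      exact absurd (Finset.mem_univ j) h

lemma el_pi' (m n : ℕ) : el R (Fin m → Z) Y n = m * el R Z Y n := by
  rw [el, (piE' (R := R) (Y := Y) (Z := Z) m n).length_eq, Module.length_pi]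
  simp [el]

lemma el_sub' {f : K →ₗ[R] F} {g : F →ₗ[R] X} (hf : Function.Injective f)
    (hg : Function.Surjective g) (H : Function.Exact f g) (n : ℕ) :
    el R K Y n ≤ el R F Y n + el R X Y (n + 1) := by
  have hS := sc_exact f g hf hg H
  refine len_mid (f := qf Y f n)
    (g := hS.extClass.precompOfLinear R (ModuleCat.of R Y) (by omega : 1 + n = n + 1)) ?_
  intro y
  constructor
  · intro hy
    obtain ⟨x, hx⟩ := Abelian.Ext.contravariant_sequence_exact₁ hS (ModuleCat.of R Y) y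
      (by omega : 1 + n = n + 1) hy
    exact ⟨x, hx⟩
  · rintro ⟨x, rfl⟩
    exact hS.extClass_comp_assoc x (h := by omega)

end first

section bound

variable {R : Type u} [CommRing R] [IsLocalRing R] [IsArtinianRing R] [IsNoetherianRing R]
  [HasExt.{u} (ModuleCat.{u} R)]

lemma el_killed' (Y : Type u) [AddCommGroup Y] [Module R Y]
    {S : Type u} [AddCommGroup S] [Module R S] [Module.Finite R S]
    (hk : ∀ a ∈ maximalIdeal R, ∀ x : S, a • x = 0) (n : ℕ) :
    el R S Y n = (ln R S : ℕ∞) * el R (R ⧸ maximalIdeal R) Y n := by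
  obtain ⟨e⟩ := killed_equiv hk
  rw [el_eq_equiv' e, el_pi']

/-- The Bass numbers of a finitely generated module. -/
noncomputable def mu (R : Type u) [CommRing R] [IsLocalRing R] [HasExt.{u} (ModuleCat.{u} R)]
    (Y : Type u) [AddCommGroup Y] [Module R Y] (n : ℕ) : ℕ :=
  (el R (R ⧸ maximalIdeal R) Y n).toNat

lemma coe_mu (Y : Type u) [AddCommGroup Y] [Module R Y] [Module.Finite R Y] (n : ℕ) :
    ((mu R Y n : ℕ) : ℕ∞) = el R (R ⧸ maximalIdeal R) Y n :=
  ENat.natCast_toNat (el_lt_top (kk R) Y n)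

/-- Upper inequality: a quotient killed by the maximal ideal. -/
lemma up_quot {X : Type u} [AddCommGroup X] [Module R X] [Module.Finite R X]
    (Y : Type u) [AddCommGroup Y] [Module R Y] [Module.Finite R Y] (W : Submodule R X)
    (hk : ∀ a ∈ maximalIdeal R, ∀ x : X ⧸ W, a • x = 0) {q E n : ℕ} (hq : q ≤ ln R (X ⧸ W))
    (hE : el R X Y (n + 1) ≤ (E : ℕ∞)) :
    q * (mu R Y (n + 1) + mu R Y n) ≤ ln R X * mu R Y n + E := by
  have h1 := el_conn (Y := Y) W.injective_subtype W.mkQ_surjective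
    (LinearMap.exact_subtype_mkQ W) n
  rw [el_killed' Y hk (n + 1), ← coe_mu] at h1
  have h2 := el_le' (R := R) W Y n
  rw [← coe_mu] at h2
  have h3 : ((ln R (X ⧸ W) * mu R Y (n + 1) : ℕ) : ℕ∞) ≤ ((ln R W * mu R Y n + E : ℕ) : ℕ∞) := by
    push_cast
    exact h1.trans (add_le_add h2 hE)
  have h4 : ln R (X ⧸ W) * mu R Y (n + 1) ≤ ln R W * mu R Y n + E := by exact_mod_cast h3
  have h5 : ln R X = ln R W + ln R (X ⧸ W) := ln_sub_add W
  calc q * (mu R Y (n + 1) + mu R Y n)
      ≤ ln R (X ⧸ W) * (mu R Y (n + 1) + mu R Y n) := Nat.mul_le_mul_right _ hq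
    _ = ln R (X ⧸ W) * mu R Y (n + 1) + ln R (X ⧸ W) * mu R Y n := by ring
    _ ≤ ln R W * mu R Y n + E + ln R (X ⧸ W) * mu R Y n := Nat.add_le_add_right h4 _
    _ = (ln R W + ln R (X ⧸ W)) * mu R Y n + E := by ring
    _ = _ := by rw [h5]

/-- Lower inequality: a submodule killed by the maximal ideal. -/
lemma low_sub {X : Type u} [AddCommGroup X] [Module R X] [Module.Finite R X]
    (Y : Type u) [AddCommGroup Y] [Module R Y] [Module.Finite R Y] (S : Submodule R X)
    (hk : ∀ a ∈ maximalIdeal R, ∀ x : S, a • x = 0) {p E n : ℕ} (hp : p ≤ ln R S)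
    (hE : el R X Y n ≤ (E : ℕ∞)) :
    p * (mu R Y (n + 1) + mu R Y n) ≤ ln R X * mu R Y (n + 1) + E := by
  have h1 := el_sub' (Y := Y) S.injective_subtype S.mkQ_surjective
    (LinearMap.exact_subtype_mkQ S) n
  rw [el_killed' Y hk n, ← coe_mu] at h1
  have h2 := el_le' (R := R) (X ⧸ S) Y (n + 1)
  rw [← coe_mu] at h2
  have h3 : ((ln R S * mu R Y n : ℕ) : ℕ∞) ≤
      ((E + ln R (X ⧸ S) * mu R Y (n + 1) : ℕ) : ℕ∞) := by
    push_cast
    exact h1.trans (add_le_add hE h2)
  have h4 : ln R S * mu R Y n ≤ E + ln R (X ⧸ S) * mu R Y (n + 1) := by exact_mod_cast h3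
  have h5 : ln R X = ln R S + ln R (X ⧸ S) := ln_sub_add S
  calc p * (mu R Y (n + 1) + mu R Y n)
      ≤ ln R S * (mu R Y (n + 1) + mu R Y n) := Nat.mul_le_mul_right _ hp
    _ = ln R S * mu R Y n + ln R S * mu R Y (n + 1) := by ring
    _ ≤ E + ln R (X ⧸ S) * mu R Y (n + 1) + ln R S * mu R Y (n + 1) := Nat.add_le_add_right h4 _
    _ = (ln R S + ln R (X ⧸ S)) * mu R Y (n + 1) + E := by ring
    _ = _ := by rw [h5]

omit [IsArtinianRing R] [IsNoetherianRing R] in
lemma mu_kk (n : ℕ) : mu R (R ⧸ maximalIdeal R) n = kap R n := rfl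

omit [IsLocalRing R] [IsNoetherianRing R] in
/-- Homomorphisms out of a module with `m` generators. -/
lemma el_zero_le {Z : Type u} [AddCommGroup Z] [Module R Z] (Y : Type u) [AddCommGroup Y]
    [Module R Y] [Module.Finite R Y] {m : ℕ} (p : (Fin m → R) →ₗ[R] Z)
    (hp : Function.Surjective p) : el R Z Y 0 ≤ ((m * ln R Y : ℕ) : ℕ∞) := by
  rw [el_zero]
  have h1 := Module.length_le_of_injective (LinearMap.lcomp R Y p)
    (LinearMap.lcomp_injective_of_surjective _ hp)
  rw [← (homPi (R := R) (Y := Y) m).length_eq, Module.length_pi, ← coe_ln Y] at h1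
  push_cast
  simpa using h1

end bound

end SAC75
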