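import Pool.Agent.Lib.SAC75.HExt

/-!
Generators and socles of the modules of homomorphisms between syzygies over an artinian local
ring, and the decay of `Ext` from these modules.
-/

set_option autoImplicit false

open CategoryTheory IsLocalRing

universe u

namespace SAC75

open SAC84

section gen

variable {R : Type u} [CommRing R] [IsLocalRing R] [IsArtinianRing R] [IsNoetherianRing R]

omit [IsNoetherianRing R] in
/-- A lower bound for the length of a module modulo the maximal ideal. -/
lemma ln_quot_ge {F H T : Type u} [AddCommGroup F] [Module R F] [AddCommGroup H] [Module R H]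
    [AddCommGroup T] [Module R T] [Module.Finite R H] [Module.Finite R T]
    (Φ : F →ₗ[R] H) (hΦ : Function.Surjective Φ) (Θ : F →ₗ[R] T) (hΘ : Function.Surjective Θ)
    (hker : ∀ G, Φ G = 0 → Θ G = 0) (hT : ∀ a ∈ maximalIdeal R, ∀ x : T, a • x = 0) :
    ln R T ≤ ln R (H ⧸ (maximalIdeal R • (⊤ : Submodule R H))) := by
  let q : H →ₗ[R] T := (LinearMap.ker Φ).liftQ Θ (fun G hG => hker G hG) ∘ₗ
    ((Φ.quotKerEquivOfSurjective hΦ).symm : H →ₗ[R] _)
  have hq : ∀ G, q (Φ G) = Θ G := by
    intro G
    have : (Φ.quotKerEquivOfSurjective hΦ).symm (Φ G) = Submodule.Quotient.mk G := by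
      rw [LinearEquiv.symm_apply_eq]
      rfl
    simp only [q, LinearMap.comp_apply, LinearEquiv.coe_coe, this]
    rfl
  have hW : (maximalIdeal R • (⊤ : Submodule R H)) ≤ LinearMap.ker q := by
    rw [Submodule.smul_le]
    intro a ha x _
    rw [LinearMap.mem_ker, map_smul]
    exact hT a ha _
  have hs : Function.Surjective ((maximalIdeal R • (⊤ : Submodule R H)).liftQ q hW) := by
    intro t
    obtain ⟨G, rfl⟩ := hΘ t
    exact ⟨Submodule.Quotient.mk (Φ G), hq G⟩
  exact ln_le_surj hs

omit [IsLocalRing R] [IsArtinianRing R] [IsNoetherianRing R] in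
lemma sum_single {p : ℕ} {Z : Type u} [AddCommGroup Z] [Module R Z]
    (L : (Fin p → R) →ₗ[R] Z) (v : Fin p → R) : L v = ∑ s, v s • L (Pi.single s 1) := by
  conv_lhs => rw [← LinearMap.sum_single_apply (fun _ : Fin p => R) v]
  rw [map_sum]
  refine Finset.sum_congr rfl fun j _ => ?_
  rw [← map_smul]
  congr 1
  ext t
  simp [Pi.single_apply]

variable [HasExt.{u} (ModuleCat.{u} R)]

/-- The number of generators of the module of homomorphisms between syzygies far apart. -/
lemma gen_lower (M : FGM R) (i j : ℕ)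
    (h1 : ExtZ R (sy M (i + 1)).car (sy M (j + 1)).car 1)
    (h1' : ExtZ R (sy M (i + 2)).car (sy M (j + 1)).car 1)
    (h2 : ExtZ R (sy M i).car R 1) (h2' : ExtZ R (sy M (i + 1)).car R 1) :
    bt M (i + 1) * bt M j ≤ ln R (((sy M (i + 2)).car →ₗ[R] (sy M j).car) ⧸
      (maximalIdeal R • (⊤ : Submodule R ((sy M (i + 2)).car →ₗ[R] (sy M j).car)))) := by
  let Φ : ((Fin (bt M (i + 1)) → R) →ₗ[R] (Fin (bt M j) → R)) →ₗ[R]
      ((sy M (i + 2)).car →ₗ[R] (sy M j).car) :=
    (pc (pro M j)) ∘ₗ (LinearMap.lcomp R _ (inc M (i + 1)))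
  have hΦ : Function.Surjective Φ := by
    intro φ
    obtain ⟨ψ, hψ⟩ := factor M (i + 1) j h1' h2' φ
    exact ⟨ψ, hψ⟩
  let Θ : ((Fin (bt M (i + 1)) → R) →ₗ[R] (Fin (bt M j) → R)) →ₗ[R]
      (Fin (bt M (i + 1)) → (Fin (bt M j) → R ⧸ maximalIdeal R)) :=
    { toFun := fun G s t => (maximalIdeal R).mkQ (G (Pi.single s 1) t)
      map_add' := by
        intro G G'
        ext s t
        simp
      map_smul' := by
        intro a G
        funext s t
        exact map_smul (maximalIdeal R).mkQ a (G (Pi.single s 1) t) }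
  have hΘ : Function.Surjective Θ := by
    intro v
    have h3 : ∀ s t, ∃ a : R, (maximalIdeal R).mkQ a = v s t := fun s t =>
      Submodule.mkQ_surjective _ (v s t)
    choose u hu using h3
    refine ⟨homPi (R := R) (Y := Fin (bt M j) → R) (bt M (i + 1)) u, ?_⟩
    funext s t
    change (maximalIdeal R).mkQ
      (homPi (R := R) (Y := Fin (bt M j) → R) (bt M (i + 1)) u (Pi.single s 1) t) = v s t
    have h4 : homPi (R := R) (Y := Fin (bt M j) → R) (bt M (i + 1)) u (Pi.single s 1) = u s :=
      congrFun ((homPi (R := R) (Y := Fin (bt M j) → R) (bt M (i + 1))).symm_apply_apply u) s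
    rw [h4, hu]
  have hker : ∀ G, Φ G = 0 → Θ G = 0 := by
    intro G hG
    have hex := LinearMap.exact_lcomp_of_exact_of_surjective (sy M j).car
      (inc_pro M (i + 1)) (pro_surj M (i + 1))
    obtain ⟨g, hg⟩ := (hex (pro M j ∘ₗ G)).1 hG
    obtain ⟨G', hG'⟩ := factor M i j h1 h2 g
    funext s t
    refine (Submodule.Quotient.mk_eq_zero _).2 ?_
    let d : Fin (bt M j) → R := G (Pi.single s 1) - G' (inc M i (pro M (i + 1) (Pi.single s 1)))
    have hd : pro M j d = 0 := by
      have h5 : pro M j (G (Pi.single s 1)) = g (pro M (i + 1) (Pi.single s 1)) :=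
        (congrArg (fun z => z (Pi.single s 1)) hg).symm
      have h6 : g (pro M (i + 1) (Pi.single s 1)) =
          pro M j (G' (inc M i (pro M (i + 1) (Pi.single s 1)))) :=
        (congrArg (fun z => z (pro M (i + 1) (Pi.single s 1))) hG').symm
      change pro M j (G (Pi.single s 1) - G' (inc M i (pro M (i + 1) (Pi.single s 1)))) = 0
      rw [map_sub, h5, h6, sub_self]
    have h7 : d t ∈ maximalIdeal R := ker_cov_mem (R := R) (sy M j).car d hd t
    have h8 : G' (inc M i (pro M (i + 1) (Pi.single s 1))) t ∈ maximalIdeal R := by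
      have h9 := sum_single ((LinearMap.proj t : (Fin (bt M j) → R) →ₗ[R] R) ∘ₗ G')
        (inc M i (pro M (i + 1) (Pi.single s 1)))
      change G' (inc M i (pro M (i + 1) (Pi.single s 1))) t = _ at h9
      rw [h9]
      exact Ideal.sum_mem _ fun r _ => Ideal.mul_mem_right _ _ (inc_mem M i _ r)
    have h10 : G (Pi.single s 1) t = d t + G' (inc M i (pro M (i + 1) (Pi.single s 1))) t := by
      simp [d]
    rw [h10]
    exact Ideal.add_mem _ h7 h8
  have h := ln_quot_ge Φ hΦ Θ hΘ hker (by
    intro a ha x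
    funext s t
    obtain ⟨y, hy⟩ := Submodule.mkQ_surjective _ (x s t)
    change a • x s t = 0
    rw [← hy, ← map_smul]
    exact (Submodule.Quotient.mk_eq_zero _).2 (Ideal.mul_mem_right _ _ ha))
  rw [ln_pi, ln_pi] at h
  have h3 : ln R (R ⧸ maximalIdeal R) = 1 := by
    rw [ln, len_residue]
    rfl
  rw [h3, mul_one] at h
  exact h

omit [HasExt.{u} (ModuleCat.{u} R)] in
/-- The socle of a syzygy contains the socle of the free module. -/
lemma soc_sy (M : FGM R) (j : ℕ) :
    bt M (j + 1) * ln R (maximalIdeal R).annihilator ≤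
      ln R (SAC3.soc R (sy M (j + 2)).car) := by
  have hsoc : ∀ x : SAC3.soc R (sy M (j + 2)).car, ∀ s,
      inc M (j + 1) x.1 s ∈ (maximalIdeal R).annihilator := by
    intro x s
    rw [Submodule.mem_annihilator]
    intro b hb
    have h1 := congrArg (fun z => inc M (j + 1) z s) (x.2 b hb)
    simp only [map_smul, map_zero, Pi.smul_apply, Pi.zero_apply, smul_eq_mul] at h1
    rw [smul_eq_mul, mul_comm]
    exact h1
  let Θ : SAC3.soc R (sy M (j + 2)).car →ₗ[R]
      (Fin (bt M (j + 1)) → (maximalIdeal R).annihilator) :=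
    { toFun := fun x s => ⟨inc M (j + 1) x.1 s, hsoc x s⟩
      map_add' := by
        intro x y
        ext s
        simp
      map_smul' := by
        intro a x
        ext s
        simp }
  have hΘ : Function.Surjective Θ := by
    intro v
    let v' : Fin (bt M (j + 1)) → R := fun s => (v s : R)
    have h0 : pro M (j + 1) v' = 0 := by
      apply inc_inj M j
      rw [map_zero]
      funext k
      have h1 := sum_single ((LinearMap.proj k : (Fin (bt M j) → R) →ₗ[R] R) ∘ₗ inc M j ∘ₗ
        pro M (j + 1)) v'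
      change inc M j (pro M (j + 1) v') k = _ at h1
      rw [h1, Pi.zero_apply]
      refine Finset.sum_eq_zero fun s _ => ?_
      exact (Submodule.mem_annihilator.1 (v s).2) _ (inc_mem M j _ k)
    obtain ⟨x, hx⟩ := (inc_pro M (j + 1) v').1 h0
    refine ⟨⟨x, fun a ha => ?_⟩, ?_⟩
    · apply inc_inj M (j + 1)
      rw [map_smul, map_zero, hx]
      funext s
      change a * (v s : R) = 0
      rw [mul_comm]
      exact (Submodule.mem_annihilator.1 (v s).2) a ha
    · funext s
      apply Subtype.ext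
      change inc M (j + 1) x s = _
      rw [hx]
  have h := ln_le_surj hΘ
  rw [ln_pi] at h
  exact h

omit [HasExt.{u} (ModuleCat.{u} R)] in
/-- The socle of a module of homomorphisms. -/
lemma soc_hom (X Z : Type u) [AddCommGroup X] [Module R X] [Module.Finite R X]
    [AddCommGroup Z] [Module R Z] [Module.Finite R Z] :
    rk R X * ln R (SAC3.soc R Z) ≤ ln R (SAC3.soc R (X →ₗ[R] Z)) := by
  let Θ : SAC3.soc R (X →ₗ[R] Z) →ₗ[R] (Fin (rk R X) → SAC3.soc R Z) :=
    { toFun := fun φ s => ⟨φ.1 (cov R X (Pi.single s 1)), fun a ha => by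
        have h1 := congrArg (fun z : X →ₗ[R] Z => z (cov R X (Pi.single s 1))) (φ.2 a ha)
        exact h1⟩
      map_add' := by
        intro x y
        ext s
        simp
      map_smul' := by
        intro a x
        ext s
        simp }
  have hΘ : Function.Surjective Θ := by
    intro v
    let Ψ : (Fin (rk R X) → R) →ₗ[R] Z :=
      homPi (R := R) (Y := Z) (rk R X) (fun s => (v s : Z))
    have hΨ : ∀ s, Ψ (Pi.single s 1) = (v s : Z) := fun s =>
      congrFun ((homPi (R := R) (Y := Z) (rk R X)).symm_apply_apply (fun s => (v s : Z))) s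
    have hex := LinearMap.exact_lcomp_of_exact_of_surjective Z
      (LinearMap.exact_subtype_ker_map (cov R X)) (cov_surj X)
    have h0 : LinearMap.lcomp R Z (LinearMap.ker (cov R X)).subtype Ψ = 0 := by
      ext u
      change Ψ u.1 = 0
      rw [sum_single Ψ u.1]
      refine Finset.sum_eq_zero fun s _ => ?_
      rw [hΨ]
      exact (v s).2 _ (ker_cov_mem X u.1 u.2 s)
    obtain ⟨φ, hφ⟩ := (hex Ψ).1 h0
    have hφ' : ∀ u, φ (cov R X u) = Ψ u := fun u => congrArg (fun z => z u) hφ
    refine ⟨⟨φ, fun a ha => ?_⟩, ?_⟩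
    · apply LinearMap.ext
      intro x
      obtain ⟨u, rfl⟩ := cov_surj (R := R) X x
      change a • φ (cov R X u) = 0
      rw [hφ', sum_single Ψ u, Finset.smul_sum]
      refine Finset.sum_eq_zero fun s _ => ?_
      rw [hΨ, smul_comm, (v s).2 a ha, smul_zero]
    · funext s
      apply Subtype.ext
      change φ (cov R X (Pi.single s 1)) = _
      rw [hφ', hΨ]
  have h := ln_le_surj hΘ
  rw [ln_pi] at h
  exact h

end gen

section decay

variable {R : Type u} [CommRing R] [IsLocalRing R] [IsArtinianRing R] [IsNoetherianRing R]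
  [HasExt.{u} (ModuleCat.{u} R)]

omit [IsLocalRing R] [IsArtinianRing R] [IsNoetherianRing R] in
lemma el_zero_surj {F X Y : Type u} [AddCommGroup F] [Module R F] [AddCommGroup X] [Module R X]
    [AddCommGroup Y] [Module R Y] (g : F →ₗ[R] X) (hg : Function.Surjective g) :
    el R X Y 0 ≤ el R F Y 0 := by
  rw [el_zero, el_zero]
  exact Module.length_le_of_injective (LinearMap.lcomp R Y g)
    (LinearMap.lcomp_injective_of_surjective _ hg)

lemma decay_zero (M : FGM R) (Y : Type u) [AddCommGroup Y] [Module R Y] [Module.Finite R Y]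
    (i j : ℕ) (h : ExtZ R (sy M i).car (sy M j).car 1) :
    el R ((sy M (i + 1)).car →ₗ[R] (sy M j).car) Y 0 ≤
      ((bt M i * bt M j * ln R Y : ℕ) : ℕ∞) := by
  have h1 := el_zero_surj (Y := Y) (LinearMap.lcomp R (sy M j).car (inc M i))
    (fun φ => ExtZ.extend (inc_inj M i) (pro_surj M i) (inc_pro M i) h φ)
  rw [← el_eq_equiv' (homPi (R := R) (Y := (sy M j).car) (bt M i)), el_pi'] at h1
  refine h1.trans ?_
  have h2 := el_zero_le Y (pro M j) (pro_surj M j)
  calc (bt M i : ℕ∞) * el R (sy M j).car Y 0 ≤ (bt M i : ℕ∞) * ((bt M j * ln R Y : ℕ) : ℕ∞) := by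
        gcongr
    _ = _ := by push_cast; ring

omit [IsArtinianRing R] in
lemma decay_succ (M : FGM R) (Y : Type u) [AddCommGroup Y] [Module R Y]
    (i j n : ℕ) (h : ExtZ R (sy M i).car (sy M j).car 1) :
    el R ((sy M (i + 1)).car →ₗ[R] (sy M j).car) Y (n + 1) ≤
      el R ((sy M i).car →ₗ[R] (sy M j).car) Y n + bt M i * el R (sy M j).car Y (n + 1) := by
  have h1 := el_conn (Y := Y) (f := LinearMap.lcomp R (sy M j).car (pro M i))
    (g := LinearMap.lcomp R (sy M j).car (inc M i))
    (LinearMap.lcomp_injective_of_surjective _ (pro_surj M i))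
    (fun φ => ExtZ.extend (inc_inj M i) (pro_surj M i) (inc_pro M i) h φ)
    (LinearMap.exact_lcomp_of_exact_of_surjective _ (inc_pro M i) (pro_surj M i)) n
  rw [← el_eq_equiv' (homPi (R := R) (Y := (sy M j).car) (bt M i)), el_pi'] at h1
  exact h1

lemma decay (M : FGM R) (Y : Type u) [AddCommGroup Y] [Module R Y] [Module.Finite R Y]
    (i j : ℕ) (h : ∀ i', i ≤ i' → ExtZ R (sy M i').car (sy M j).car 1)
    (h' : ∀ n, ExtZ R (sy M j).car Y (n + 1)) (n : ℕ) :
    el R ((sy M (i + n + 1)).car →ₗ[R] (sy M j).car) Y n ≤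
      ((bt M i * bt M j * ln R Y : ℕ) : ℕ∞) := by
  induction n with
  | zero => exact decay_zero M Y i j (h i le_rfl)
  | succ n ih =>
    have h1 := decay_succ M Y (i + n + 1) j n (h _ (by omega))
    rw [(el_eq_zero_iff (R := R) (n + 1)).2 (h' n), mul_zero, add_zero] at h1
    exact h1.trans ih

end decay

end SAC75
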