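import Pool.Agent.Lib.SAC75.Growth

/-!
Numerical part for artinian local rings which need not be Gorenstein. `b` are the Betti numbers
of a module, `ℓ` the lengths of its syzygies, `h i j` the lengths of the modules of
homomorphisms from the `i`-th to the `j`-th syzygy, `μ` the Bass numbers of one syzygy.
-/

namespace SAC75

open Finset

/-- Averaging for a finite family of shifts. -/
lemma avg_lin {f : ℕ → ℕ} (h1 : ∀ n, 1 ≤ f n) (r0 : 0 < rad f) {N : ℕ} (c : Fin N → ℝ)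
    (s : Fin N → ℕ) (L : ℕ)
    (h : ∀ i, L ≤ i → 0 ≤ ∑ a, c a * (f (i + s a) : ℝ)) :
    0 ≤ ∑ a, c a * (1 / rad f) ^ s a := by
  classical
  set K : ℕ := (∑ a, s a) + 1 with hK
  have hs : ∀ a, s a < K := fun a => by
    have : s a ≤ ∑ a, s a := Finset.single_le_sum (fun _ _ => Nat.zero_le _) (Finset.mem_univ a)
    omega
  have key : ∀ g : ℕ → ℝ, ∑ k ∈ range K, (∑ a ∈ univ.filter (fun a => s a = k), c a) * g k
      = ∑ a, c a * g (s a) := by
    intro g
    rw [← Finset.sum_fiberwise_of_maps_to (s := univ) (t := range K) (g := s)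
      (fun a _ => Finset.mem_range.2 (hs a))]
    refine Finset.sum_congr rfl fun k _ => ?_
    rw [Finset.sum_mul]
    refine Finset.sum_congr rfl fun a ha => ?_
    rw [(Finset.mem_filter.1 ha).2]
  have := avgN h1 r0 K (fun k => ∑ a ∈ univ.filter (fun a => s a = k), c a) L (fun i hi => by
    rw [key (fun k => (f (i + k) : ℝ))]
    exact h i hi)
  rwa [key (fun k => (1 / rad f) ^ k)] at this

/-- The numerical data. -/
structure HSys (b ℓ : ℕ → ℕ) (h : ℕ → ℕ → ℕ) (μ : ℕ → ℕ) (c r e w D : ℕ) : Prop where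
  b1 : ∀ n, 1 ≤ b n
  bup : ∀ n, b (n + 1) ≤ c * b n
  ls : ∀ j, ℓ j + ℓ (j + 1) = c * b j
  hs : ∀ i j, j + D ≤ i → h i j + h (i + 1) j = b i * ℓ j
  S : ∀ i j, j + D ≤ i →
    b (i + 1) * b j * (e + 1) ≤ h (i + 2) j + b i * b j + b (i + 1) * b (j + 1)
  A : ∀ n i j, D ≤ j → j + D ≤ i →
    b (i + n + 1) * b j * (μ (n + 1) + μ n) ≤ h (i + n + 2) j * μ n + b i * b j * w
  B : ∀ n i j, D ≤ j → j + 1 + D ≤ i →
    r * b (i + n + 1) * b j * (μ (n + 1) + μ n)
      ≤ h (i + n + 1) (j + 1) * μ (n + 1) + b i * b (j + 1) * w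
  nz : ∀ n0, ∃ n, n0 ≤ n ∧ μ n ≠ 0

variable {b ℓ : ℕ → ℕ} {h : ℕ → ℕ → ℕ} {μ : ℕ → ℕ} {c r e w D : ℕ}

lemma HSys.sq (H : HSys b ℓ h μ c r e w D) (i j : ℕ) (hij : j + 1 + D ≤ i) :
    (h i j : ℝ) + h (i + 1) j + h i (j + 1) + h (i + 1) (j + 1) = c * (b i * b j) := by
  have h1 := H.hs i j (by omega)
  have h2 := H.hs i (j + 1) (by omega)
  have h3 := H.ls j
  have h1' : (h i j : ℝ) + h (i + 1) j = b i * ℓ j := by exact_mod_cast h1
  have h2' : (h i (j + 1) : ℝ) + h (i + 1) (j + 1) = b i * ℓ (j + 1) := by exact_mod_cast h2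
  have h3' : (ℓ j : ℝ) + ℓ (j + 1) = c * b j := by exact_mod_cast h3
  calc (h i j : ℝ) + h (i + 1) j + h i (j + 1) + h (i + 1) (j + 1)
      = (h i j + h (i + 1) j) + (h i (j + 1) + h (i + 1) (j + 1)) := by ring
    _ = b i * (ℓ j + ℓ (j + 1)) := by rw [h1', h2']; ring
    _ = _ := by rw [h3']; ring

lemma HSys.rpos (H : HSys b ℓ h μ c r e w D) : 0 < rad b := by
  have c0 : (0 : ℝ) < c + 1 := by positivity
  have hb : ∀ n, b n ≤ (c + 1) ^ n * b 0 := by
    intro n
    induction n with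
    | zero => simp
    | succ n ih =>
      calc b (n + 1) ≤ c * b n := H.bup n
        _ ≤ (c + 1) * ((c + 1) ^ n * b 0) := Nat.mul_le_mul (by omega) ih
        _ = _ := by ring
  set t : ℝ := 1 / (2 * (c + 1)) with ht
  have t0 : 0 < t := by positivity
  refine lt_of_lt_of_le t0 (le_rad H.b1 ⟨t0.le, ?_⟩)
  refine Summable.of_nonneg_of_le (fun n => by positivity) (fun n => ?_)
    ((summable_geometric_of_lt_one (r := 1 / 2) (by norm_num) (by norm_num)).mul_left (b 0 : ℝ))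
  have h1 : (b n : ℝ) ≤ (c + 1) ^ n * b 0 := by exact_mod_cast hb n
  have h2 : ((c : ℝ) + 1) ^ n * t ^ n = (1 / 2) ^ n := by
    rw [← mul_pow, ht]; congr 1; field_simp
  calc (b n : ℝ) * t ^ n ≤ ((c + 1) ^ n * b 0) * t ^ n :=
        mul_le_mul_of_nonneg_right h1 (by positivity)
    _ = b 0 * (((c : ℝ) + 1) ^ n * t ^ n) := by ring
    _ = _ := by rw [h2]

/-- Inequality (S1). -/
lemma HSys.stepS (H : HSys b ℓ h μ c r e w D) :
    ((e : ℝ) + 1) * (1 / rad b) * (1 + 1 / rad b) ^ 2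
      ≤ (1 + (1 / rad b) ^ 2) * (1 + 1 / rad b) ^ 2 + c * (1 / rad b) ^ 2 := by
  have r0 := H.rpos
  set x : ℝ := 1 / rad b with hx
  -- average in `i`
  have step1 : ∀ j : ℕ, 0 ≤ (x ^ 2 * c + (1 + x) - (e + 1) * (x + x ^ 2) + (x + x ^ 2) * 0)
      * (b j : ℝ) + (x + x ^ 2 + (1 + x) - (e + 1) * (x + x ^ 2)) * b (j + 1)
      + (x + x ^ 2) * b (j + 2) := by
    intro j
    have := avg_lin H.b1 r0 (N := 3)
      ![((b j : ℝ) + b (j + 1)),
        ((b j : ℝ) + b (j + 1)) + (b (j + 1) + b (j + 2)) - (e + 1) * (b j + b (j + 1)),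
        (c : ℝ) * b j + (b (j + 1) + b (j + 2)) - (e + 1) * (b j + b (j + 1))]
      ![0, 1, 2] (j + 1 + D) (fun i hi => by
        have L1 := H.S i j (by omega)
        have L2 := H.S (i + 1) j (by omega)
        have L3 := H.S i (j + 1) (by omega)
        have L4 := H.S (i + 1) (j + 1) (by omega)
        have S := H.sq (i + 2) j (by omega)
        have L1' : (b (i + 1) : ℝ) * b j * (e + 1) ≤ h (i + 2) j + b i * b j
            + b (i + 1) * b (j + 1) := by exact_mod_cast L1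
        have L2' : (b (i + 2) : ℝ) * b j * (e + 1) ≤ h (i + 2 + 1) j + b (i + 1) * b j
            + b (i + 2) * b (j + 1) := by exact_mod_cast L2
        have L3' : (b (i + 1) : ℝ) * b (j + 1) * (e + 1) ≤ h (i + 2) (j + 1) + b i * b (j + 1)
            + b (i + 1) * b (j + 2) := by exact_mod_cast L3
        have L4' : (b (i + 2) : ℝ) * b (j + 1) * (e + 1) ≤ h (i + 2 + 1) (j + 1)
            + b (i + 1) * b (j + 1) + b (i + 2) * b (j + 2) := by exact_mod_cast L4
        simp only [Fin.sum_univ_succ, Fin.sum_univ_zero, Matrix.cons_val_zero,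
          Matrix.cons_val_succ, add_zero]
        nlinarith)
    simp only [Fin.sum_univ_succ, Fin.sum_univ_zero, Matrix.cons_val_zero,
      Matrix.cons_val_succ, add_zero, ← hx] at this
    norm_num at this
    nlinarith
  have key := avg_lin H.b1 r0 (N := 3)
    ![x ^ 2 * c + (1 + x) - (e + 1) * (x + x ^ 2), x + x ^ 2 + (1 + x) - (e + 1) * (x + x ^ 2),
      x + x ^ 2] ![0, 1, 2] 0 (fun j _ => by
      have := step1 j
      simp only [Fin.sum_univ_succ, Fin.sum_univ_zero, Matrix.cons_val_zero,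
        Matrix.cons_val_succ, add_zero]
      nlinarith)
  simp only [Fin.sum_univ_succ, Fin.sum_univ_zero, Matrix.cons_val_zero,
    Matrix.cons_val_succ, add_zero, ← hx] at key
  norm_num at key
  nlinarith

end SAC75
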